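import Pool.Agent.helper43.DHB.SpecB

set_option autoImplicit false

open Filter Topology MeasureTheory
open scoped commutatorElement

namespace Pool.Agent.helper90.DH

open Pool.Agent.helper64.D2

theorem BAT_dg_lt {q L N : ℕ} (hN : 0 < N) (w : Fin q × Fin L → Fin N) (i l : ℕ) : dg w i l < N := by
  unfold dg
  split_ifs with h
  · exact (w _).2
  · exact hN

theorem BAT_sum (w0 M : ℕ) (hM : w0 + 20 ≤ M) (J : Finset (ℕ × ℕ)) (B : ℕ)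
    (hJ : J ⊆ (Finset.range (2 ^ w0)) ×ˢ (Finset.range B)) (hs : ∀ j ∈ J, M ≤ j.2) :
    ∑ j ∈ J, 2 * (1 / 2 : ℝ) ^ (4 * j.2) ≤ 1 / 10 := by
  have h1 : ∀ j ∈ J, 2 * (1 / 2 : ℝ) ^ (4 * j.2) ≤ 2 * (1 / 2 : ℝ) ^ (3 * M) * (1 / 2 : ℝ) ^ j.2 := by
    intro j hj
    have := hs j hj
    rw [mul_assoc, ← pow_add]
    apply mul_le_mul_of_nonneg_left _ (by norm_num)
    exact pow_le_pow_of_le_one (by norm_num) (by norm_num) (by omega)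
  calc ∑ j ∈ J, 2 * (1 / 2 : ℝ) ^ (4 * j.2) ≤ ∑ j ∈ J, 2 * (1 / 2 : ℝ) ^ (3 * M) * (1 / 2 : ℝ) ^ j.2 := Finset.sum_le_sum h1
    _ ≤ ∑ j ∈ (Finset.range (2 ^ w0)) ×ˢ (Finset.range B), 2 * (1 / 2 : ℝ) ^ (3 * M) * (1 / 2 : ℝ) ^ j.2 := by
        apply Finset.sum_le_sum_of_subset_of_nonneg hJ
        intro i _ _
        positivity
    _ = 2 ^ w0 * (2 * (1 / 2 : ℝ) ^ (3 * M)) * ∑ s ∈ Finset.range B, (1 / 2 : ℝ) ^ s := by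
        rw [Finset.sum_product]
        simp only [Finset.sum_const, Finset.card_range, nsmul_eq_mul, Nat.cast_pow, Nat.cast_ofNat]
        rw [← Finset.mul_sum]
        ring
    _ ≤ 2 ^ w0 * (2 * (1 / 2 : ℝ) ^ (3 * M)) * 2 := by
        apply mul_le_mul_of_nonneg_left _ (by positivity)
        have hsum : HasSum (fun n : ℕ => (1 / 2 : ℝ) ^ n) 2 := by
          simpa using hasSum_geometric_two
        exact sum_le_hasSum _ (fun i _ => by positivity) hsum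
    _ ≤ 1 / 10 := by
        have h2 : (1 / 2 : ℝ) ^ (3 * M) ≤ (1 / 2 : ℝ) ^ (w0 + 40) := pow_le_pow_of_le_one (by norm_num) (by norm_num) (by omega)
        have h3 : (2 : ℝ) ^ w0 * (1 / 2 : ℝ) ^ (w0 + 40) = (1 / 2 : ℝ) ^ 40 := by
          rw [pow_add, ← mul_assoc, ← mul_pow]
          norm_num
        calc (2 : ℝ) ^ w0 * (2 * (1 / 2 : ℝ) ^ (3 * M)) * 2 = 4 * (2 ^ w0 * (1 / 2 : ℝ) ^ (3 * M)) := by ring
          _ ≤ 4 * (2 ^ w0 * (1 / 2 : ℝ) ^ (w0 + 40)) := by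
              apply mul_le_mul_of_nonneg_left _ (by norm_num)
              exact mul_le_mul_of_nonneg_left h2 (by positivity)
          _ = 4 * (1 / 2 : ℝ) ^ 40 := by rw [h3]
          _ ≤ 1 / 10 := by norm_num

/-- **BAT**. -/
theorem BAT (hSPG : bSPG_stmt) (hSLG : bSLG_stmt) (hFGP : bFGP_stmt) (hSJB : bSJB_stmt) (hPRB : bPRB_stmt) : BAT_stmt := by
  intro β hβ
  obtain ⟨m0, hm0⟩ := hSLG
  obtain ⟨K, wK, hK1, hF⟩ := hFGP β hβ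
  refine ⟨K, m0, wK, hK1, fun w0 hw0 => ?_⟩
  obtain ⟨th, ρ1, hth, hF1⟩ := hF w0 hw0
  obtain ⟨ρ2, h2⟩ := hSPG β hβ w0 th hth
  obtain ⟨ρ3, h3⟩ := hm0 β hβ w0
  obtain ⟨ρ4, h4⟩ := hSJB w0 (w0 + 20)
  refine ⟨th, max (max ρ1 ρ2) (max ρ3 ρ4), hth, ?_⟩
  intro ρ hρ t P E hPE hS
  have hρ1 : ρ1 ≤ ρ := le_trans (le_trans (le_max_left _ _) (le_max_left _ _)) hρ
  have hρ2 : ρ2 ≤ ρ := le_trans (le_trans (le_max_right _ _) (le_max_left _ _)) hρ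
  have hρ3 : ρ3 ≤ ρ := le_trans (le_trans (le_max_left _ _) (le_max_right _ _)) hρ
  have hρ4 : ρ4 ≤ ρ := le_trans (le_trans (le_max_right _ _) (le_max_right _ _)) hρ
  obtain ⟨P1, P2, P3, P4, P5, P6, P7⟩ := hPRB
  have hN : 0 < 2 ^ sj (ρ ^ 2) (t + 1) := by positivity
  haveI : Nonempty (Fin (2 ^ sj (ρ ^ 2) (t + 1))) := ⟨⟨0, hN⟩⟩
  have hA1 := h2 ρ hρ2 t P E hPE hS
  -- the three bad sets
  let C : (Fin (ρ ^ 4) × Fin (2 ^ bu w0 (ρ ^ 2) t) → Fin (2 ^ sj (ρ ^ 2) (t + 1))) → ℕ → ℝ → ℝ := fun w =>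
    CMf β (bu w0 (ρ ^ 2) t) (2 ^ sj (ρ ^ 2) (t + 1)) (fun i => 1 / 2 ^ amp w0 (ρ ^ 2) t (i % 2 ^ w0)) (fun i => ev (P i)) (fun i => ev (E i)) (dg w)
  let A2 : Set (Fin (ρ ^ 4) × Fin (2 ^ bu w0 (ρ ^ 2) t) → Fin (2 ^ sj (ρ ^ 2) (t + 1))) := {w | 1 ≤ t ∧ ¬ ∀ y ∈ Set.Icc (1 / 6 : ℝ) (5 / 6),
    (nearf (ρ ^ 4) (C w) (sj (ρ ^ 2) t) (1 / 2 ^ (sj (ρ ^ 2) t + sj (ρ ^ 2) t / 8)) y).card ≤ m0}
  have hA2 : bpr A2 ≤ 1 / 10 := by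
    rcases Nat.eq_zero_or_pos t with ht | ht
    · have : A2 = ∅ := by
        ext w
        simp only [A2, Set.mem_setOf_eq, Set.mem_empty_iff_false, iff_false]
        rintro ⟨h, _⟩
        omega
      rw [this, P3]
      norm_num
    · refine le_trans (P1 _ _ _ ?_) (h3 ρ hρ3 t P E ht hPE)
      intro w hw
      exact hw.2
  let J : Finset (ℕ × ℕ) := ((Finset.range (2 ^ w0)) ×ˢ (Finset.range (sj (ρ ^ 2) (t + 1) + 3 * w0 * 2 ^ w0 + 1))).filter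
    (fun j => amp w0 (ρ ^ 2) t j.1 + w0 ≤ j.2)
  let A3 : ℕ × ℕ → Set (Fin (ρ ^ 4) × Fin (2 ^ bu w0 (ρ ^ 2) t) → Fin (2 ^ sj (ρ ^ 2) (t + 1))) := fun j =>
    {w | ¬ FGf (ρ ^ 4) (2 ^ w0) j.1 (C w) j.2 (K / 2 ^ w0)}
  have hA3 : bpr (⋃ j ∈ J, A3 j) ≤ 1 / 10 := by
    refine le_trans (P4 _ _ J A3) ?_
    have h5 : ∀ j ∈ J, bpr (A3 j) ≤ 2 * (1 / 2 : ℝ) ^ (4 * j.2) := by
      intro j hj
      simp only [J, Finset.mem_filter, Finset.mem_product, Finset.mem_range] at hj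
      exact hF1 ρ hρ1 t P E hPE hS j.1 hj.1.1 j.2 hj.2 (by omega)
    refine le_trans (Finset.sum_le_sum h5) ?_
    apply BAT_sum w0 (w0 + 20) le_rfl J _ (Finset.filter_subset _ _)
    intro j hj
    simp only [J, Finset.mem_filter, Finset.mem_product, Finset.mem_range] at hj
    obtain ⟨_, _, _, _, _, h6, _⟩ := h4 ρ hρ4 t
    have := (h6 j.1 hj.1.1).1
    omega
  obtain ⟨w, hw⟩ : ∃ w, w ∉ ({w : Fin (ρ ^ 4) × Fin (2 ^ bu w0 (ρ ^ 2) t) → Fin (2 ^ sj (ρ ^ 2) (t + 1)) | ¬ ∀ k : ℕ, k * ρ ^ 3 ≤ sj (ρ ^ 2) (t + 1) →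
      SPRf (ρ ^ 4) (C w) (sj (ρ ^ 2) (t + 1)) k th 8} ∪ A2) ∪ ⋃ j ∈ J, A3 j := by
    apply P6
    refine lt_of_le_of_lt (le_trans (P5 _ _ _) (add_le_add (P5 _ _ _) le_rfl)) ?_
    have : bpr {w : Fin (ρ ^ 4) × Fin (2 ^ bu w0 (ρ ^ 2) t) → Fin (2 ^ sj (ρ ^ 2) (t + 1)) | ¬ ∀ k : ℕ, k * ρ ^ 3 ≤ sj (ρ ^ 2) (t + 1) →
      SPRf (ρ ^ 4) (C w) (sj (ρ ^ 2) (t + 1)) k th 8} ≤ 1 / 10 := hA1
    linarith
  simp only [Set.mem_union, not_or] at hw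
  obtain ⟨⟨hw1, hw2⟩, hw3⟩ := hw
  refine ⟨dg w, fun i l => BAT_dg_lt hN w i l, ?_⟩
  intro c hc
  have hcC : (fun i => ev (c i)) = C w := by
    funext i x
    exact hc i x
  refine ⟨?_, ?_, ?_⟩
  · intro φ hφ s hs1 hs2
    have h7 : ¬ w ∈ A3 (φ, s) := by
      intro h8
      apply hw3
      simp only [Set.mem_iUnion]
      refine ⟨(φ, s), ?_, h8⟩
      simp only [J, Finset.mem_filter, Finset.mem_product, Finset.mem_range]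
      exact ⟨⟨hφ, by omega⟩, hs1⟩
    have h8 : FGf (ρ ^ 4) (2 ^ w0) φ (C w) s (K / 2 ^ w0) := by
      by_contra h9
      exact h7 h9
    rw [← hcC] at h8
    exact h8
  · intro k hk
    have h8 : SPRf (ρ ^ 4) (C w) (sj (ρ ^ 2) (t + 1)) k th 8 := by
      by_contra h9
      apply hw1
      show ¬ ∀ k : ℕ, k * ρ ^ 3 ≤ sj (ρ ^ 2) (t + 1) → SPRf (ρ ^ 4) (C w) (sj (ρ ^ 2) (t + 1)) k th 8
      intro h10
      exact h9 (h10 k hk)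
    rw [← hcC] at h8
    exact h8
  · intro ht y hy
    have h8 : (nearf (ρ ^ 4) (C w) (sj (ρ ^ 2) t) (1 / 2 ^ (sj (ρ ^ 2) t + sj (ρ ^ 2) t / 8)) y).card ≤ m0 := by
      by_contra h9
      apply hw2
      refine ⟨ht, fun h10 => h9 (h10 y hy)⟩
    rw [← hcC] at h8
    exact h8

end Pool.Agent.helper90.DH
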