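import Pool.Agent.helper43.DHB.SpecB

set_option autoImplicit false

open Filter Topology MeasureTheory
open scoped commutatorElement

namespace Pool.Agent.helper90.DH

open Pool.Agent.helper64.D2

theorem bHGP_mono {a b : ℝ} {C : ℝ → ℝ} (h : NM a C) (hab : a ≤ b) : NM b C :=
  ⟨h.cd, fun x => (h.sl x).trans hab, fun x => (h.ds x).trans hab⟩

theorem bHGP_syn_ne (s : ℕ) (v : Kc s × Bool → ℝ) (y : ℝ) (h : syn s v y ≠ 0) :
    ∃ α : Kc s × Bool, v α ≠ 0 ∧ y ∈ cell s ((α.1.1 : ℕ) : ℤ) := by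
  by_contra hcon
  push Not at hcon
  apply h
  unfold syn
  apply Finset.sum_eq_zero
  intro α _
  by_cases hv : v α = 0
  · rw [hv, zero_mul]
  · rw [Set.indicator_of_notMem (hcon α hv), mul_zero]

theorem bHGP_cell (s u : ℕ) (hus : u ≤ s) (k j : ℕ) (y : ℝ) (hy : y ∈ cell s ((k : ℕ) : ℤ)) (hk : k / 2 ^ (s - u) = j) :
    y ∈ cell u ((j : ℕ) : ℤ) := by
  have h2 : (2 : ℝ) ^ s = 2 ^ (s - u) * 2 ^ u := by
    rw [← pow_add]
    congr 1
    omega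
  have hp : 0 < 2 ^ (s - u) := by positivity
  have h3 : j * 2 ^ (s - u) ≤ k := by
    rw [← hk]
    exact Nat.div_mul_le_self _ _
  have h4 : k + 1 ≤ (j + 1) * 2 ^ (s - u) := by
    rw [← hk]
    have := Nat.lt_div_mul_add hp (a := k)
    calc k + 1 ≤ k / 2 ^ (s - u) * 2 ^ (s - u) + 2 ^ (s - u) := this
      _ = (k / 2 ^ (s - u) + 1) * 2 ^ (s - u) := by ring
  have h3' : (j : ℝ) * 2 ^ (s - u) ≤ k := by exact_mod_cast h3
  have h4' : (k : ℝ) + 1 ≤ (j + 1) * 2 ^ (s - u) := by exact_mod_cast h4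
  unfold cell at hy ⊢
  obtain ⟨hy1, hy2⟩ := hy
  have hpos : (0 : ℝ) < 2 ^ (s - u) := by positivity
  constructor
  · refine le_trans ?_ hy1
    push_cast
    rw [h2, div_le_div_iff₀ (by positivity) (by positivity)]
    nlinarith [pow_pos (show (0 : ℝ) < 2 by norm_num) u]
  · refine lt_of_lt_of_le hy2 ?_
    push_cast
    rw [h2, div_le_div_iff₀ (by positivity) (by positivity)]
    nlinarith [pow_pos (show (0 : ℝ) < 2 by norm_num) u]

theorem bHGP_Kc (s : ℕ) (α : Kc s) (y : ℝ) (hy : y ∈ cell s ((α.1 : ℕ) : ℤ)) : y ∈ Set.Icc (1 / 5 : ℝ) (4 / 5) := by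
  obtain ⟨h1, h2⟩ := α.2
  have h1' : (2 : ℝ) ^ s ≤ 5 * ((α.1 : ℕ) : ℝ) := by exact_mod_cast h1
  have h2' : 5 * (((α.1 : ℕ) : ℝ) + 1) ≤ 4 * (2 : ℝ) ^ s := by exact_mod_cast h2
  unfold cell at hy
  obtain ⟨hy1, hy2⟩ := hy
  have hp : (0 : ℝ) < 2 ^ s := by positivity
  constructor
  · refine le_trans ?_ hy1
    rw [le_div_iff₀ hp]
    push_cast
    linarith
  · refine le_trans hy2.le ?_
    rw [div_le_iff₀ hp]
    push_cast
    linarith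

theorem bHGP_meas (s : ℕ) (k : ℤ) : MeasurableSet (cell s k) := measurableSet_Ico

theorem bHGP_nsq (g : MeasureTheory.Lp ℝ 2 (volume : Measure ℝ)) (F : ℝ → ℝ) (h : (g : ℝ → ℝ) =ᵐ[volume] F) :
    ‖g‖ ^ 2 = nsq F := by
  rw [← real_inner_self_eq_norm_sq, MeasureTheory.L2.inner_def]
  unfold nsq
  apply MeasureTheory.integral_congr_ae
  filter_upwards [h] with x hx
  rw [hx, real_inner_self_eq_norm_sq, Real.norm_eq_abs, sq_abs]

theorem bHGP_disj (u : ℕ) (k l : ℤ) (hkl : k ≠ l) (x : ℝ) (hx : x ∈ cell u k) : x ∉ cell u l := by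
  intro hy
  unfold cell at hx hy
  obtain ⟨a1, a2⟩ := hx
  obtain ⟨b1, b2⟩ := hy
  have hp : (0 : ℝ) < 2 ^ u := by positivity
  rw [div_le_iff₀ hp] at a1 b1
  rw [lt_div_iff₀ hp] at a2 b2
  have h1 : (k : ℝ) < l + 1 := lt_of_le_of_lt a1 b2
  have h2 : (l : ℝ) < k + 1 := lt_of_le_of_lt b1 a2
  have h1' : k < l + 1 := by exact_mod_cast h1
  have h2' : l < k + 1 := by exact_mod_cast h2
  omega

/-- the operators for helper41's theorem -/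
noncomputable def bHGP_X (s u N par : ℕ) {ι : Type} (P B : ι → ℝ → ℝ) (τ : ℝ)
    (X0 : (ℝ → ℝ) → Set ℝ → (EuclideanSpace ℝ (Kc s × Bool) →L[ℝ] (MeasureTheory.Lp ℝ 2 (volume : Measure ℝ))))
    (i : ι) (l : Fin (2 ^ u)) (c : Fin N) : EuclideanSpace ℝ (Kc s × Bool) →L[ℝ] MeasureTheory.Lp ℝ 2 (volume : Measure ℝ) :=
  if (l : ℕ) % 2 = par then X0 (fun x => P i (B i x + τ * (((c : ℕ) : ℝ) / N))) (cell u ((l : ℕ) : ℤ)) else 0

open Classical in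
/-- the almost everywhere formula for the operators -/
theorem bHGP_ae (s u N par : ℕ) {ι : Type} (P B : ι → ℝ → ℝ) (τ : ℝ)
    (X0 : (ℝ → ℝ) → Set ℝ → (EuclideanSpace ℝ (Kc s × Bool) →L[ℝ] (MeasureTheory.Lp ℝ 2 (volume : Measure ℝ))))
    (hX0 : ∀ (C : ℝ → ℝ) (A : Set ℝ), NM (1 / 20) C → MeasurableSet A →
      (∀ v : EuclideanSpace ℝ (Kc s × Bool), ((X0 C A v : MeasureTheory.Lp ℝ 2 (volume : Measure ℝ)) : ℝ → ℝ) =ᵐ[volume] A.indicator (fun x => syn s (WithLp.ofLp v) (C x))) ∧ ‖X0 C A‖ ≤ 11 / 10)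
    (hCc : ∀ (i : ι) (c : Fin N), NM (1 / 20) (fun x => P i (B i x + τ * (((c : ℕ) : ℝ) / N))))
    (i : ι) (l : Fin (2 ^ u)) (c : Fin N) (v : EuclideanSpace ℝ (Kc s × Bool)) :
    ((bHGP_X s u N par P B τ X0 i l c v : MeasureTheory.Lp ℝ 2 (volume : Measure ℝ)) : ℝ → ℝ) =ᵐ[volume]
      fun x => if (l : ℕ) % 2 = par ∧ x ∈ cell u ((l : ℕ) : ℤ) then syn s (WithLp.ofLp v) (P i (B i x + τ * (((c : ℕ) : ℝ) / N))) else 0 := by
  unfold bHGP_X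
  by_cases hp : (l : ℕ) % 2 = par
  · simp only [hp, if_true, true_and]
    refine ((hX0 _ _ (hCc i c) (bHGP_meas u _)).1 v).trans ?_
    apply Filter.Eventually.of_forall
    intro x
    by_cases hx : x ∈ cell u ((l : ℕ) : ℤ)
    · simp only [Set.indicator_of_mem hx, hx, if_true]
    · simp only [Set.indicator_of_notMem hx, hx, if_false]
  · simp only [hp, if_false, false_and]
    exact MeasureTheory.Lp.coeFn_zero _ _ _

/-- the orthogonality -/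
theorem bHGP_orth (s u N par : ℕ) {ι : Type} (P B : ι → ℝ → ℝ) (τ : ℝ)
    (X0 : (ℝ → ℝ) → Set ℝ → (EuclideanSpace ℝ (Kc s × Bool) →L[ℝ] (MeasureTheory.Lp ℝ 2 (volume : Measure ℝ))))
    (hX0 : ∀ (C : ℝ → ℝ) (A : Set ℝ), NM (1 / 20) C → MeasurableSet A →
      (∀ v : EuclideanSpace ℝ (Kc s × Bool), ((X0 C A v : MeasureTheory.Lp ℝ 2 (volume : Measure ℝ)) : ℝ → ℝ) =ᵐ[volume] A.indicator (fun x => syn s (WithLp.ofLp v) (C x))) ∧ ‖X0 C A‖ ≤ 11 / 10)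
    (hCc : ∀ (i : ι) (c : Fin N), NM (1 / 20) (fun x => P i (B i x + τ * (((c : ℕ) : ℝ) / N))))
    (i i' : ι) (l l' : Fin (2 ^ u)) (c c' : Fin N) (hl : l ≠ l') (v w : EuclideanSpace ℝ (Kc s × Bool)) :
    inner ℝ (bHGP_X s u N par P B τ X0 i l c v) (bHGP_X s u N par P B τ X0 i' l' c' w) = 0 := by
  classical
  rw [MeasureTheory.L2.inner_def]
  rw [← MeasureTheory.integral_zero ℝ ℝ]
  apply MeasureTheory.integral_congr_ae
  filter_upwards [bHGP_ae s u N par P B τ X0 hX0 hCc i l c v, bHGP_ae s u N par P B τ X0 hX0 hCc i' l' c' w] with x h1 h2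
  rw [h1, h2]
  by_cases hx : x ∈ cell u ((l : ℕ) : ℤ)
  · have hx' : x ∉ cell u ((l' : ℕ) : ℤ) := by
      apply bHGP_disj u _ _ _ x hx
      intro h
      apply hl
      apply Fin.ext
      exact_mod_cast h
    simp only [hx', and_false, if_false, inner_zero_right]
  · simp only [hx, and_false, if_false, inner_zero_left]

/-- locality -/
theorem bHGP_loc (s u N par : ℕ) (hus : u ≤ s) {ι : Type} (P B : ι → ℝ → ℝ) (τ : ℝ) (hτ : 0 < τ)
    (X0 : (ℝ → ℝ) → Set ℝ → (EuclideanSpace ℝ (Kc s × Bool) →L[ℝ] (MeasureTheory.Lp ℝ 2 (volume : Measure ℝ))))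
    (hX0 : ∀ (C : ℝ → ℝ) (A : Set ℝ), NM (1 / 20) C → MeasurableSet A →
      (∀ v : EuclideanSpace ℝ (Kc s × Bool), ((X0 C A v : MeasureTheory.Lp ℝ 2 (volume : Measure ℝ)) : ℝ → ℝ) =ᵐ[volume] A.indicator (fun x => syn s (WithLp.ofLp v) (C x))) ∧ ‖X0 C A‖ ≤ 11 / 10)
    (hCc : ∀ (i : ι) (c : Fin N), NM (1 / 20) (fun x => P i (B i x + τ * (((c : ℕ) : ℝ) / N))))
    (i : ι) (l : Fin (2 ^ u)) (c : Fin N) (j : Fin (2 ^ u)) (hj : ¬ tch P B u τ i l j) (v : EuclideanSpace ℝ (Kc s × Bool))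
    (hv : ∀ α : Kc s × Bool, WithLp.ofLp v α ≠ 0 → (α.1.1 : ℕ) / 2 ^ (s - u) = (j : ℕ)) :
    bHGP_X s u N par P B τ X0 i l c v = 0 := by
  classical
  apply MeasureTheory.Lp.ext
  refine (bHGP_ae s u N par P B τ X0 hX0 hCc i l c v).trans (Filter.EventuallyEq.trans ?_ (MeasureTheory.Lp.coeFn_zero _ _ _).symm)
  apply Filter.Eventually.of_forall
  intro x
  show (if (l : ℕ) % 2 = par ∧ x ∈ cell u ((l : ℕ) : ℤ) then syn s (WithLp.ofLp v) (P i (B i x + τ * (((c : ℕ) : ℝ) / N))) else 0) = 0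
  split_ifs with h
  · by_contra hne
    obtain ⟨α, hα, hy⟩ := bHGP_syn_ne _ _ _ hne
    apply hj
    have hmem := bHGP_cell s u hus _ _ _ hy (hv α hα)
    refine ⟨⟨_, hmem, bHGP_Kc s α.1 _ hy⟩, x, h.2, τ * (((c : ℕ) : ℝ) / N), ⟨by positivity, ?_⟩, hmem⟩
    have h1 : (((c : ℕ) : ℝ) / N) ≤ 1 := by
      apply div_le_one_of_le₀
      · exact_mod_cast c.2.le
      · positivity
    calc τ * (((c : ℕ) : ℝ) / N) ≤ τ * 1 := mul_le_mul_of_nonneg_left h1 hτ.le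
      _ = τ := mul_one τ
  · rfl

open Classical in
/-- the function of the centred average -/
theorem bHGP_fun (s u N par : ℕ) (hN : 0 < N) {ι : Type} [Fintype ι] (P B : ι → ℝ → ℝ) (τ : ℝ)
    (X0 : (ℝ → ℝ) → Set ℝ → (EuclideanSpace ℝ (Kc s × Bool) →L[ℝ] (MeasureTheory.Lp ℝ 2 (volume : Measure ℝ))))
    (hX0 : ∀ (C : ℝ → ℝ) (A : Set ℝ), NM (1 / 20) C → MeasurableSet A →
      (∀ v : EuclideanSpace ℝ (Kc s × Bool), ((X0 C A v : MeasureTheory.Lp ℝ 2 (volume : Measure ℝ)) : ℝ → ℝ) =ᵐ[volume] A.indicator (fun x => syn s (WithLp.ofLp v) (C x))) ∧ ‖X0 C A‖ ≤ 11 / 10)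
    (hCc : ∀ (i : ι) (c : Fin N), NM (1 / 20) (fun x => P i (B i x + τ * (((c : ℕ) : ℝ) / N))))
    (ω : ι × Fin (2 ^ u) → Fin N) (v : EuclideanSpace ℝ (Kc s × Bool)) :
    ((((Fintype.card ι : ℝ)⁻¹ • ∑ e : ι × Fin (2 ^ u), (bHGP_X s u N par P B τ X0 e.1 e.2 (ω e) - DH5.avE (bHGP_X s u N par P B τ X0 e.1 e.2))) v :
      MeasureTheory.Lp ℝ 2 (volume : Measure ℝ)) : ℝ → ℝ) =ᵐ[volume]
      fun x => (∑ i, zc P B u N par τ (syn s (WithLp.ofLp v)) ω i x) / Fintype.card ι := by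
  have h0 : (((Fintype.card ι : ℝ)⁻¹ • ∑ e : ι × Fin (2 ^ u), (bHGP_X s u N par P B τ X0 e.1 e.2 (ω e) - DH5.avE (bHGP_X s u N par P B τ X0 e.1 e.2))) v)
      = (Fintype.card ι : ℝ)⁻¹ • ∑ e : ι × Fin (2 ^ u), (bHGP_X s u N par P B τ X0 e.1 e.2 (ω e) v - (N : ℝ)⁻¹ • ∑ c : Fin N, bHGP_X s u N par P B τ X0 e.1 e.2 c v) := by
    simp only [DH5.avE, ContinuousLinearMap.smul_apply, ContinuousLinearMap.sum_apply, ContinuousLinearMap.sub_apply, Fintype.card_fin]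
  rw [h0]
  have h1 := MeasureTheory.Lp.coeFn_smul (Fintype.card ι : ℝ)⁻¹ (∑ e : ι × Fin (2 ^ u), (bHGP_X s u N par P B τ X0 e.1 e.2 (ω e) v - (N : ℝ)⁻¹ • ∑ c : Fin N, bHGP_X s u N par P B τ X0 e.1 e.2 c v))
  have h2 := MeasureTheory.Lp.coeFn_finsetSum (Finset.univ : Finset (ι × Fin (2 ^ u))) (fun e => (bHGP_X s u N par P B τ X0 e.1 e.2 (ω e) v - (N : ℝ)⁻¹ • ∑ c : Fin N, bHGP_X s u N par P B τ X0 e.1 e.2 c v))
  have h3 : ∀ᵐ x ∂(volume : Measure ℝ), ∀ e : ι × Fin (2 ^ u), ((bHGP_X s u N par P B τ X0 e.1 e.2 (ω e) v - (N : ℝ)⁻¹ • ∑ c : Fin N, bHGP_X s u N par P B τ X0 e.1 e.2 c v : MeasureTheory.Lp ℝ 2 (volume : Measure ℝ)) : ℝ → ℝ) x =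
      (bHGP_X s u N par P B τ X0 e.1 e.2 (ω e) v : ℝ → ℝ) x - ((N : ℝ)⁻¹ • ∑ c : Fin N, bHGP_X s u N par P B τ X0 e.1 e.2 c v : MeasureTheory.Lp ℝ 2 (volume : Measure ℝ)) x := by
    rw [MeasureTheory.ae_all_iff]
    intro e
    filter_upwards [MeasureTheory.Lp.coeFn_sub (bHGP_X s u N par P B τ X0 e.1 e.2 (ω e) v) ((N : ℝ)⁻¹ • ∑ c : Fin N, bHGP_X s u N par P B τ X0 e.1 e.2 c v)] with x hx
    rw [hx]
    rfl
  have h4 : ∀ᵐ x ∂(volume : Measure ℝ), ∀ e : ι × Fin (2 ^ u), (((N : ℝ)⁻¹ • ∑ c : Fin N, bHGP_X s u N par P B τ X0 e.1 e.2 c v : MeasureTheory.Lp ℝ 2 (volume : Measure ℝ)) : ℝ → ℝ) x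
      = (N : ℝ)⁻¹ * ∑ c : Fin N, (bHGP_X s u N par P B τ X0 e.1 e.2 c v : ℝ → ℝ) x := by
    rw [MeasureTheory.ae_all_iff]
    intro e
    filter_upwards [MeasureTheory.Lp.coeFn_smul (N : ℝ)⁻¹ (∑ c : Fin N, bHGP_X s u N par P B τ X0 e.1 e.2 c v),
      MeasureTheory.Lp.coeFn_finsetSum (Finset.univ : Finset (Fin N)) (fun c => bHGP_X s u N par P B τ X0 e.1 e.2 c v)] with x hx hx2
    rw [hx, Pi.smul_apply, smul_eq_mul, hx2, Finset.sum_apply]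
  have h5 : ∀ᵐ x ∂(volume : Measure ℝ), ∀ (e : ι × Fin (2 ^ u)) (c : Fin N), (bHGP_X s u N par P B τ X0 e.1 e.2 c v : ℝ → ℝ) x
      = if (e.2 : ℕ) % 2 = par ∧ x ∈ cell u ((e.2 : ℕ) : ℤ) then syn s (WithLp.ofLp v) (P e.1 (B e.1 x + τ * (((c : ℕ) : ℝ) / N))) else 0 := by
    rw [MeasureTheory.ae_all_iff]
    intro e
    rw [MeasureTheory.ae_all_iff]
    intro c
    exact bHGP_ae s u N par P B τ X0 hX0 hCc e.1 e.2 c v
  filter_upwards [h1, h2, h3, h4, h5] with x k1 k2 k3 k4 k5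
  rw [k1, Pi.smul_apply, smul_eq_mul, k2, Finset.sum_apply, Fintype.sum_prod_type, div_eq_inv_mul]
  congr 1
  apply Finset.sum_congr rfl
  intro i _
  unfold zc
  apply Finset.sum_congr rfl
  intro l _
  have e1 := k3 (i, l)
  simp only at e1
  rw [e1]
  have e2 := k4 (i, l)
  simp only at e2
  rw [e2]
  have e3 := k5 (i, l)
  simp only at e3
  rw [e3 (ω (i, l))]
  simp only [e3]
  split_ifs with hc
  · congr 1
    rw [div_eq_inv_mul, Finset.sum_range]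
  · simp

/-- **bHGP**. -/
theorem bHGP (hG : DH5.GAP_stmt) (hBAS : bBAS_stmt) (hXOP : bXOP_stmt) (hPRO : bPRO_stmt) (hTCH : bTCH_stmt) (hNMF : bNMF_stmt) : bHGP_stmt := by
  classical
  obtain ⟨K₀, hK1, hG⟩ := hG
  refine ⟨K₀, hK1, ?_⟩
  intro ι _ _ _ P B u s N par τ b ks hNM hτ hτ2 hu hus hN hb hb1 hks hsm hc1 hc2
  haveI : Nonempty (Fin N) := ⟨⟨0, hN⟩⟩
  obtain ⟨X0, hX0⟩ := hXOP s
  obtain ⟨Pj, hPF, hPj⟩ := hPRO s u hus
  have hτ3 : τ ≤ 1 / 100 := by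
    refine hτ2.trans ?_
    rw [div_le_div_iff₀ (by positivity) (by norm_num)]
    have : (1 : ℝ) ≤ 2 ^ u := one_le_pow₀ (by norm_num)
    linarith
  have hCc : ∀ (i : ι) (c : Fin N), NM (1 / 20) (fun x => P i (B i x + τ * (((c : ℕ) : ℝ) / N))) := by
    intro i c
    have h1 : (((c : ℕ) : ℝ) / N) ≤ 1 := by
      apply div_le_one_of_le₀
      · exact_mod_cast c.2.le
      · positivity
    have h2 : |τ * (((c : ℕ) : ℝ) / N)| ≤ 1 / 100 := by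
      rw [abs_of_nonneg (by positivity)]
      calc τ * (((c : ℕ) : ℝ) / N) ≤ τ * 1 := mul_le_mul_of_nonneg_left h1 hτ.le
        _ ≤ 1 / 100 := by rw [mul_one]; exact hτ3
    refine bHGP_mono (hNMF.2.1 (P i) (B i) (1 / 100) (1 / 100) (τ * (((c : ℕ) : ℝ) / N)) (by norm_num) (by norm_num) (hNM i).1 (hNM i).2) ?_
    linarith
  obtain ⟨t1, t2, _⟩ := hTCH ι P B u τ hNM hu hτ.le hτ2
  have key := hG ι (Fin (2 ^ u)) (Fin (2 ^ u)) (Fin N) (EuclideanSpace ℝ (Kc s × Bool)) (MeasureTheory.Lp ℝ 2 (volume : Measure ℝ)) Pj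
    (bHGP_X s u N par P B τ X0) (tch P B u τ) (2 * 2 ^ (s - u)) s b ks
    (by have := Nat.one_le_two_pow (n := s - u); omega) (by omega) hPF
    (by
      intro i z o
      unfold bHGP_X
      split_ifs
      · exact (hX0 _ _ (hCc i o) (bHGP_meas u _)).2
      · rw [norm_zero]; norm_num)
    (fun i i' z z' o o' hz v w => bHGP_orth s u N par P B τ X0 hX0 hCc i i' z z' o o' hz v w)
    (by
      intro i z o j hj
      ext1 v
      show bHGP_X s u N par P B τ X0 i z o (Pj j v) = 0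
      apply bHGP_loc s u N par hus P B τ hτ X0 hX0 hCc i z o j hj
      intro α hα
      rw [hPj] at hα
      by_contra hcon
      rw [if_neg hcon] at hα
      exact hα rfl)
    t1 t2 hb hb1 hks hsm hc1 hc2
    (by
      rw [Fintype.card_fin]
      push_cast
      have h1 : (2 : ℝ) ^ s = 2 ^ (s - u) * 2 ^ u := by
        rw [← pow_add]
        congr 1
        omega
      have h2 : (2 : ℝ) * 2 ^ (s - u) * (2 ^ u + 2 ^ u) = 4 * 2 ^ s := by rw [h1]; ring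
      rw [h2]
      calc (4 : ℝ) * 2 ^ s = 2 ^ (2 + s) := by rw [pow_add]; norm_num
        _ ≤ 2 ^ (2 * s) := pow_le_pow_right₀ (by norm_num) (by omega))
  unfold bpr
  have hcard : (0 : ℝ) < Fintype.card (ι × Fin (2 ^ u) → Fin N) := by exact_mod_cast Fintype.card_pos
  rw [div_le_iff₀ hcard]
  rw [Nat.card_eq_fintype_card] at key
  refine le_trans ?_ key
  norm_cast
  apply Set.ncard_le_ncard _ (Set.toFinite _)
  rintro ω ⟨f, hf1, hf2, hf3, hf4⟩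
  show K₀ * b * Real.log (2 / b) < _
  by_contra hcon
  rw [not_lt] at hcon
  obtain ⟨v, hv⟩ := (hBAS s).2 f hf1 hf2 hf3
  have hnf : nsq f = ∑ α, v α ^ 2 := by rw [hv]; exact ((hBAS s).1 v).2.2.2
  have hV : ‖(WithLp.toLp 2 v : EuclideanSpace ℝ (Kc s × Bool))‖ ^ 2 = ∑ α, v α ^ 2 := by
    rw [EuclideanSpace.norm_sq_eq]
    apply Finset.sum_congr rfl
    intro α _
    rw [Real.norm_eq_abs, sq_abs]
  have h1 := ContinuousLinearMap.le_of_opNorm_le _ hcon (WithLp.toLp 2 v : EuclideanSpace ℝ (Kc s × Bool))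
  have h2 := bHGP_nsq _ _ (bHGP_fun s u N par hN P B τ X0 hX0 hCc ω (WithLp.toLp 2 v))
  have h3 : (fun x => (∑ i, zc P B u N par τ (syn s (WithLp.ofLp (WithLp.toLp 2 v : EuclideanSpace ℝ (Kc s × Bool)))) ω i x) / (Fintype.card ι : ℝ)) =
      fun x => (∑ i, zc P B u N par τ f ω i x) / (Fintype.card ι : ℝ) := by
    rw [hv]
  rw [h3] at h2
  have h4 := pow_le_pow_left₀ (norm_nonneg _) h1 2
  rw [h2, mul_pow, hV, ← hnf] at h4
  exact absurd hf4 (not_lt.2 h4)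

end Pool.Agent.helper90.DH
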