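import Pool.Agent.helper90.DH.Iface
import Pool.Agent.helper41.G5.Spec

/-!
# Project d2: (MP_5823cb_al, S01539): SPEC OF PART G (sparsity, gap, sliver), helper43.  Proves `BAT_stmt`, `PERT_stmt`, `GALL_stmt` of `Iface.lean`.

Rules: module `XX` is `theorem XX (hYY : YY_stmt) … : XX_stmt` in the file `Pool/Agent/<seat>/DHB/XX.lean` with `import Pool.Agent.helper43.DHB.SpecB`, `set_option autoImplicit false`,
`open Filter Topology MeasureTheory`, `open scoped commutatorElement`, `namespace Pool.Agent.helper90.DH`, `open Pool.Agent.helper64.D2`. Auxiliary lemmas prefixed `XX_`.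
`uses:` = the statements which may be taken as hypotheses (you may take fewer or more).
-/

set_option autoImplicit false

open Filter Topology MeasureTheory
open scoped commutatorElement

namespace Pool.Agent.helper90.DH

open Pool.Agent.helper64.D2

/-! ## Finite probability -/

/-- Probability of a set for the uniform measure of a finite type. -/
noncomputable def bpr {Ω : Type} [Fintype Ω] (A : Set Ω) : ℝ := (Set.ncard A : ℝ) / Fintype.card Ω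

/-- **bPRB** (short). Elementary facts. uses: nothing. -/
def bPRB_stmt : Prop :=
  (∀ (Ω : Type) [Fintype Ω] (A B : Set Ω), A ⊆ B → bpr A ≤ bpr B) ∧
  (∀ (Ω : Type) [Fintype Ω] (A : Set Ω), 0 ≤ bpr A ∧ bpr A ≤ 1) ∧
  (∀ (Ω : Type) [Fintype Ω], bpr (∅ : Set Ω) = 0) ∧
  (∀ (Ω J : Type) [Fintype Ω] (S : Finset J) (A : J → Set Ω), bpr (⋃ j ∈ S, A j) ≤ ∑ j ∈ S, bpr (A j)) ∧
  (∀ (Ω : Type) [Fintype Ω] (A B : Set Ω), bpr (A ∪ B) ≤ bpr A + bpr B) ∧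
  (∀ (Ω : Type) [Fintype Ω] [Nonempty Ω] (A : Set Ω), bpr A < 1 → ∃ ω, ω ∉ A) ∧
  (∀ (Ω Ω' : Type) [Fintype Ω] [Fintype Ω'] (e : Ω ≃ Ω') (A : Set Ω'), bpr (e ⁻¹' A) = bpr A)

open Classical in
/-- **bRSM** (short/medium). Resampling the coordinates in `S`. uses: nothing (bPRB).
Proof. `(ω₀, ω) ↦ (mix, comix)`, `mix j = ω j` for `j ∈ S` and `ω₀ j` otherwise, `comix` the other way round, is an involution of `Ω × Ω`. So `#Ω * #A = #{(ω₀, ω) | mix ∈ A} = ∑_(ω₀) #{ω | mix ω₀ ω ∈ A} ≤ #Ω * p * #Ω`. -/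
def bRSM_stmt : Prop := ∀ (J κ : Type) [Fintype J] [DecidableEq J] [Fintype κ] [Nonempty κ] (S : Set J) (A : Set (J → κ)) (p : ℝ),
  (∀ ω₀ : J → κ, bpr {ω : J → κ | (fun j => if j ∈ S then ω j else ω₀ j) ∈ A} ≤ p) → bpr A ≤ p

/-- **bMRG** (short). Marginals. uses: nothing (bPRB).
Proof. All fibres of `ω ↦ ω ∘ e` have the same number `(#κ)^(#J - #J₀)` of elements. (Or: `J ≃ J₀ ⊕ {j // j ∉ range e}`.) -/
def bMRG_stmt : Prop := ∀ (J J₀ κ : Type) [Fintype J] [DecidableEq J] [Fintype J₀] [DecidableEq J₀] [Fintype κ] [Nonempty κ] (e : J₀ → J) (A : Set (J₀ → κ)),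
  Function.Injective e → bpr {ω : J → κ | (fun j => ω (e j)) ∈ A} = bpr A

/-- **bPRD** (short/medium). Product bound for tests `T t` with private coordinates `x t`. uses: bPRB (bRSM).
Proof. Induction on the number of tests: if `t` is a test, the other tests do not depend on the coordinate `x t`. Sum over `ω` by first summing over the coordinate `x t` (`∑_ω F ω = (1/#κ) ∑_ω ∑_c F (update ω (x t) c)`): for given `ω` the number of `c` with `update ω (x t) c ∈ ⋂ T` is `0` if `ω` is not in the other tests, and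
`≤ p #κ` otherwise. -/
def bPRD_stmt : Prop := ∀ (J κ 𝒯 : Type) [Fintype J] [DecidableEq J] [Fintype κ] [Nonempty κ] [Fintype 𝒯] (T : 𝒯 → Set (J → κ)) (x : 𝒯 → J) (p : ℝ), 0 ≤ p →
  (∀ t t', t ≠ t' → ∀ (ω : J → κ) (c : κ), (ω ∈ T t' ↔ Function.update ω (x t) c ∈ T t')) →
  (∀ t (ω : J → κ), bpr {c : κ | Function.update ω (x t) c ∈ T t} ≤ p) → bpr (⋂ t, T t) ≤ p ^ Fintype.card 𝒯

/-! ## Functions instead of elements of `DD` -/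

/-- `SPR` for functions. -/
def SPRf (q : ℕ) (C : ℕ → ℝ → ℝ) (r k : ℕ) (th tol : ℝ) : Prop :=
  ∀ (p : ℕ → ℝ) (E : Finset (ℕ × ℕ × ℕ)), (∀ a < k, p a ∈ Set.Icc (1 / 6 : ℝ) (5 / 6)) →
    (∀ e ∈ E, e.1 < q ∧ e.2.1 < k ∧ e.2.2 < k ∧ |C e.1 (p e.2.1) - p e.2.2| ≤ tol / 2 ^ r) →
    (∀ e ∈ E, ∀ e' ∈ E, e.1 = e'.1 → (e.2.1 = e'.2.1 ∨ e.2.2 = e'.2.2) → e = e') → (E.card : ℝ) ≤ th * q * k

/-- The edges of every label are a partial injection. -/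
def PIn (E : Finset (ℕ × ℕ × ℕ)) : Prop := ∀ e ∈ E, ∀ e' ∈ E, e.1 = e'.1 → (e.2.1 = e'.2.1 ∨ e.2.2 = e'.2.2) → e = e'

open Classical in
/-- `near` for functions, with radius `δ`. -/
noncomputable def nearf (q : ℕ) (C : ℕ → ℝ → ℝ) (s : ℕ) (δ : ℝ) (y : ℝ) : Finset ℕ :=
  (Finset.range q).filter (fun i => ∃ k : ℤ, |C i y - (k : ℝ) / 2 ^ s| ≤ δ)

/-- `Tf` for functions. -/
noncomputable def Tff (q m φ : ℕ) (C : ℕ → ℝ → ℝ) (f : ℝ → ℝ) (x : ℝ) : ℝ := (∑ i ∈ fam q m φ, f (C i x)) / (fam q m φ).card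

/-- `FG` for functions. -/
def FGf (q m φ : ℕ) (C : ℕ → ℝ → ℝ) (s : ℕ) (lam : ℝ) : Prop :=
  ∀ f : ℝ → ℝ, PA (s + 1) f → Su f → (∀ x, Es s f x = 0) → nsq (Tff q m φ C f) ≤ lam ^ 2 * nsq f

/-- Near-identity maps of class `C^1`. -/
structure NM (a : ℝ) (C : ℝ → ℝ) : Prop where
  cd : ContDiff ℝ 1 C
  sl : ∀ x, |deriv C x - 1| ≤ a
  ds : ∀ x, |C x - x| ≤ a

/-- The maps of a batch as functions. -/
noncomputable def CMf (β : ℝ → ℝ) (u N : ℕ) (τ : ℕ → ℝ) (P E : ℕ → ℝ → ℝ) (om : ℕ → ℕ → ℕ) (i : ℕ) (x : ℝ) : ℝ :=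
  P i (E i x + Wd β u N (τ i) (om i) x)

/-- Digits from a point of the finite space. -/
def dg {q L N : ℕ} (w : Fin q × Fin L → Fin N) (i l : ℕ) : ℕ := if h : i < q ∧ l < L then (w (⟨i, h.1⟩, ⟨l, h.2⟩) : ℕ) else 0

/-- **bNMF** (medium). Facts on near-identity maps. uses: nothing.
Proof. (1) `ev g - id` vanishes outside `(0,1)`, so does its derivative outside `[0,1]`, mean value theorem for `deriv (ev g)` and then for `ev g - id` (every `x ∈ (0,1)` has distance `≤ 1` from `0`). (2) chain rule, `|P'(Qx+c) Q'(x) - 1| ≤ a + b + ab`. (3) mean value theorem; continuous with `C x - x` bounded, so onto.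
(4) change of variables (`MeasureTheory.integral_image_eq_integral_abs_deriv_smul` for `s = univ`, or `lintegral_image_eq_lintegral_abs_deriv_mul`: `∫ g = ∫ g(C x) |C' x|`), `C' ≥ 1 - a`. -/
def bNMF_stmt : Prop :=
  (∀ (g : DD) (a : ℝ), a ≤ 1 / 10 → Sz g a → NM a (ev g) ∧ ∀ x y, |deriv (ev g) x - deriv (ev g) y| ≤ a * |x - y|) ∧
  (∀ (P Q : ℝ → ℝ) (a b c : ℝ), a ≤ 1 / 10 → b ≤ 1 / 10 → NM a P → NM b Q → NM (a + b + a * b + |c|) (fun x => P (Q x + c))) ∧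
  (∀ (C : ℝ → ℝ) (a : ℝ), a ≤ 1 / 10 → NM a C → Continuous C ∧ StrictMono C ∧ Function.Surjective C ∧
    ∀ x y, (1 - a) * |x - y| ≤ |C x - C y| ∧ |C x - C y| ≤ (1 + a) * |x - y|) ∧
  (∀ (C : ℝ → ℝ) (a : ℝ) (g : ℝ → ℝ), a ≤ 1 / 10 → NM a C → (∀ x, 0 ≤ g x) → Integrable g →
    Integrable (fun x => g (C x)) ∧ ∫ x, g (C x) ≤ (1 / (1 - a)) * ∫ x, g x)

/-- Bounded measurable functions with bounded support. -/
def Nc (f : ℝ → ℝ) : Prop := Measurable f ∧ ∃ B : ℝ, (∀ x, |f x| ≤ B) ∧ ∀ x, B < |x| → f x = 0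

/-- **bNIC** (medium). The class `Nc` and the norm `√nsq`. uses: nothing (bNMF for the last but one).
Proof. `MemLp f 2` for bounded functions of bounded support; Minkowski `eLpNorm_add_le` or Cauchy-Schwarz; Jensen `((∑ f_i)/n)^2 ≤ (∑ f_i^2)/n` pointwise. PA functions: the restriction to a cell is measurable, countably many cells; finitely many cells meet `[1/5,4/5]`, on each the function is affine, so bounded. -/
def bNIC_stmt : Prop :=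
  (∀ f g, Nc f → Nc g → Nc (fun x => f x + g x) ∧ Nc (fun x => f x - g x) ∧ Nc (fun x => f x * g x)) ∧
  (∀ (f : ℝ → ℝ) (c : ℝ), Nc f → Nc (fun x => c * f x) ∧ Nc (fun x => f x / c) ∧ Nc (fun x => |f x|)) ∧
  (∀ (f : ℝ → ℝ) (A : Set ℝ), MeasurableSet A → Nc f → Nc (A.indicator f)) ∧
  (∀ (J : Type) (S : Finset J) (F : J → ℝ → ℝ), (∀ i ∈ S, Nc (F i)) → Nc (fun x => ∑ i ∈ S, F i x)) ∧
  (∀ f, Nc f → Integrable f ∧ Integrable (fun x => f x ^ 2) ∧ MemLp f 2 (volume : Measure ℝ)) ∧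
  (∀ f g, Nc f → Nc g → √(nsq (fun x => f x + g x)) ≤ √(nsq f) + √(nsq g)) ∧
  (∀ f g, Nc f → Nc g → |∫ x, f x * g x| ≤ √(nsq f) * √(nsq g)) ∧
  (∀ f g, Nc f → Nc g → (∀ x, |f x| ≤ |g x|) → nsq f ≤ nsq g) ∧
  (∀ (J : Type) (S : Finset J) (F : J → ℝ → ℝ) (c : ℝ), 0 ≤ c → (∀ i ∈ S, Nc (F i) ∧ nsq (F i) ≤ c) → nsq (fun x => (∑ i ∈ S, F i x) / S.card) ≤ c) ∧
  (∀ (C : ℝ → ℝ) (a : ℝ) (f : ℝ → ℝ), a ≤ 1 / 10 → NM a C → Nc f → Nc (fun x => f (C x)) ∧ nsq (fun x => f (C x)) ≤ (1 / (1 - a)) * nsq f) ∧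
  (∀ (s : ℕ) (f : ℝ → ℝ), PA s f → Su f → Nc f)

/-- **bWDF** (medium). The digit functions. uses: nothing.
Proof. At most the indices `l` with `2^u x - l ∈ (-1,2)` contribute: `l ∈ {ci u x - 1, ci u x, ci u x + 1}`. `Kβ = 3 sup |β'|` (`β'` is continuous with compact support). For `x ∈ [1/6,5/6]`, `u ≥ 7`, all these `l` belong to the range of summation (`2^u/6 - 1 ≥ 2^(u-3) + 2`), and `β (2^u x - l) = 1` for `l = ci u x`
since `2^u x - l ∈ [0,1)`. -/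
def bWDF_stmt : Prop := ∀ β : ℝ → ℝ, BUMP β → ∃ Kb : ℝ, 1 ≤ Kb ∧ ∀ (u N : ℕ) (τ : ℝ) (ω : ℕ → ℕ), 7 ≤ u → 0 < N → 0 ≤ τ → (∀ l, ω l ≤ N) →
  ContDiff ℝ 1 (Wd β u N τ ω) ∧ (∀ x, |Wd β u N τ ω x| ≤ 3 * τ) ∧ (∀ x, |deriv (Wd β u N τ ω) x| ≤ Kb * τ * 2 ^ u) ∧
  (∀ x ∈ Set.Icc (1 / 6 : ℝ) (5 / 6), ∀ ω' : ℕ → ℕ, (∀ l : ℕ, |(l : ℤ) - ci u x| ≤ 1 → ω' l = ω l) → Wd β u N τ ω' x = Wd β u N τ ω x) ∧
  (∀ x ∈ Set.Icc (1 / 6 : ℝ) (5 / 6), ∀ l : ℕ, (l : ℤ) = ci u x → ∀ c : ℕ,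
    Wd β u N τ (Function.update ω l c) x = Wd β u N τ (Function.update ω l 0) x + τ * ((c : ℝ) / N))

/-! ## Sparsity growth -/

/-- The sum of the gaps `≤ 16/2^w` of `p 0 ≤ p 1 ≤ … ≤ p (k-1)`. -/
noncomputable def smg (k : ℕ) (p : ℕ → ℝ) (w : ℕ) : ℝ :=
  ∑ a ∈ Finset.range (k - 1), if p (a + 1) - p a ≤ 16 / 2 ^ w then p (a + 1) - p a else 0

/-- The scale `w` is clean. -/
def Cln (k : ℕ) (p : ℕ → ℝ) (w : ℕ) : Prop := smg k p w ≤ 1 / (16 * 2 ^ w)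

/-- The number of the cluster of the point `a` at the scale `w` (number of large gaps before `a`). -/
noncomputable def clu (p : ℕ → ℝ) (w a : ℕ) : ℕ := ((Finset.range a).filter (fun c => 16 / 2 ^ w < p (c + 1) - p c)).card

open Classical in
/-- **bCLN** (short). At most `512 k` scales are unclean. uses: nothing.
Proof. `w` unclean: `1 < 16 * 2^w * smg w = ∑_a [gap_a ≤ 16/2^w] 16 * 2^w * gap_a`. Sum over `w ∈ U`: a gap `g > 0` contributes `16 g ∑_(2^w ≤ 16/g) 2^w ≤ 16 g * 2 * 16/g = 512`, a gap `0` contributes `0`. -/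
def bCLN_stmt : Prop := ∀ (k : ℕ) (p : ℕ → ℝ), Monotone p → ∀ U : Finset ℕ, (U.filter (fun w => ¬ Cln k p w)).card ≤ 512 * k

/-- **bCLB** (short). Clusters. uses: nothing.
Proof. (1) all gaps between `a` and `b` are small, so `|p a - p b| ≤ smg`. (2) a large gap lies between `a` and `b`. -/
def bCLB_stmt : Prop := ∀ (k : ℕ) (p : ℕ → ℝ), Monotone p →
  (∀ w a b, Cln k p w → a < k → b < k → clu p w a = clu p w b → |p a - p b| ≤ 1 / (16 * 2 ^ w)) ∧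
  (∀ w a b, clu p w a ≠ clu p w b → 16 / 2 ^ w < |p a - p b|)

/-- Size of the class `c`. -/
def bsz (k : ℕ) (cl : ℕ → ℕ) (c : ℕ) : ℕ := ((Finset.range k).filter (fun a => cl a = c)).card

/-- The classes of size at least `t`. -/
def blv (k : ℕ) (cl : ℕ → ℕ) (t : ℕ) : Finset ℕ := ((Finset.range k).image cl).filter (fun c => t ≤ bsz k cl c)

/-- The edges induced between the classes of size at least `t`. -/
def bed (k : ℕ) (cl : ℕ → ℕ) (E : Finset (ℕ × ℕ × ℕ)) (t : ℕ) : Finset (ℕ × ℕ × ℕ) :=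
  (E.image (fun e => (e.1, cl e.2.1, cl e.2.2))).filter (fun e => t ≤ bsz k cl e.2.1 ∧ t ≤ bsz k cl e.2.2)

/-- **bLAY** (medium). LAYER CAKE. uses: nothing.
Proof. `#E ≤ ∑_((i,c,c') ∈ image) min (bsz c) (bsz c')` (the edges of `E` over `(i,c,c')` are a partial injection from the class `c` to the class `c'`) `= ∑_(t ≥ 1) #(bed t)`, and `k = ∑_c bsz c = ∑_(t ≥ 1) #(blv t)` (`t ≤ k` is enough). If `#(bed t) ≤ ρ #(blv t)` for all `t ≥ 1` then `#E ≤ ρ k`.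
`PIn (bed t)`: two induced edges of the same label with the same source (target) class have the same target (source) class by the hypothesis. -/
def bLAY_stmt : Prop := ∀ (k : ℕ) (cl : ℕ → ℕ) (E : Finset (ℕ × ℕ × ℕ)) (ρ : ℝ), 0 ≤ ρ → (∀ e ∈ E, e.2.1 < k ∧ e.2.2 < k) → PIn E →
  (∀ e ∈ E, ∀ e' ∈ E, e.1 = e'.1 → (cl e.2.1 = cl e'.2.1 ↔ cl e.2.2 = cl e'.2.2)) → ρ * k < E.card →
  ∃ t, 1 ≤ t ∧ ρ * (blv k cl t).card < (bed k cl E t).card ∧ PIn (bed k cl E t)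

/-- The pairs (label, cluster of the source) which are used by `E` at the scale `w`. -/
noncomputable def bus (p : ℕ → ℝ) (w : ℕ) (E : Finset (ℕ × ℕ × ℕ)) : Finset (ℕ × ℕ) := E.image (fun e => (e.1, clu p w e.2.1))

/-- **bNPR** (medium). Number of used pairs at a clean scale. uses: bCLB, bLAY.
Proof. `E` satisfies the hypothesis of bLAY for `cl = clu p w`: `e, e' ∈ E` with the same label and source cluster: `|p e.2.2 - p e'.2.2| ≤ 2 * 1/(16*2^w) + 2/2^w < 16/2^w`, so the same target cluster (bCLB (2)); conversely, same target cluster: `|C i (p a) - C i (p a')| ≤ (1/16 + 2)/2^w`, `|p a - p a'| ≤ 2 (33/16)/2^w < 16/2^w`.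
bLAY with `ρ = th q` gives `t`; `L = blv t`, `#bed > th q #L`, so `L ≠ ∅`. Enumerate `L` (`Finset.equivFin` or `orderIsoOfFin`) by `0..k'-1`, `k' = #L`, and choose representatives `a_c < k` with `clu p w a_c = c`, `p' (number of c) = p a_c`. The edges `(i,c,c') ∈ bed` become edges `E'` (same number, partial injections) with
`|C0 i (p a_c) - p a_c'| ≤ 1/2^w + 2/(16*2^w) + 1/2^w + 1/(16*2^w) ≤ 4/2^w`. If `k' ≤ kk` then `SPRf` gives `#bed ≤ th q k'`, a contradiction. So `k' > kk`, `k' ≥ 1`, and `#bus ≥ #bed` (the projection `(i,c,c') ↦ (i,c)` is injective on `bed` and maps into `bus`). -/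
def bNPR_stmt : Prop := ∀ (q : ℕ) (C0 C : ℕ → ℝ → ℝ) (th kk : ℝ) (k w : ℕ) (p : ℕ → ℝ) (E : Finset (ℕ × ℕ × ℕ)), 0 ≤ th →
  (∀ k' : ℕ, (k' : ℝ) ≤ kk → SPRf q C0 w k' th 4) → Monotone p → (∀ a < k, p a ∈ Set.Icc (1 / 6 : ℝ) (5 / 6)) → Cln k p w →
  (∀ i < q, ∀ x, |C i x - C0 i x| ≤ 1 / 2 ^ w) → (∀ i < q, ∀ x y, |x - y| / 2 ≤ |C i x - C i y| ∧ |C i x - C i y| ≤ 2 * |x - y|) → PIn E →
  (∀ e ∈ E, e.1 < q ∧ e.2.1 < k ∧ e.2.2 < k ∧ |C e.1 (p e.2.1) - p e.2.2| ≤ 1 / 2 ^ w) → th * q * k < E.card →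
  th * q * max 1 kk < ((bus p w E).card : ℝ)

/-- **bDGT** (short). One digit. uses: nothing.
Proof. Two admissible digits `c, c'` satisfy `|c - c'| θ/(2N) ≤ 2ρ`, so there are at most `4 ρ N/θ + 1` admissible digits. -/
def bDGT_stmt : Prop := ∀ (P : ℝ → ℝ) (b θ ρ y : ℝ) (N : ℕ), (∀ x y, |x - y| / 2 ≤ |P x - P y|) → 0 < θ → 0 ≤ ρ → 0 < N →
  bpr {c : Fin N | |P (b + θ * (((c : ℕ) : ℝ) / N)) - y| ≤ ρ} ≤ 4 * ρ / θ + 1 / N

/-- **bCFG** (medium/LONG). Probability of one configuration. uses: bNPR, bCLB, bPRD, bPRB, bDGT, bWDF, bNMF.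
Proof. If the event is empty there is nothing to prove. Otherwise bNPR for a digit vector in the event (`C0 i = P i ∘ Em i`, `C i = CMf …`, `|C - C0| ≤ 1.01 * 3 τ ≤ 1/2^w`, slopes of `Em + Wd` in `[0.9,1.1]` because `Kb τ 2^u ≤ 1/100`, `10/2^S ≤ 1/2^w`): `#bus > th q max 1 kk`. For every pair `(i,c) ∈ bus` choose a witness edge
`e = (i,a,b) ∈ E`, `clu p w a = c`; test `T_(i,c) = {w' | |CMf … i (p a) - p b| ≤ 10/2^S}`, private coordinate `(i,l)`, `l = ci u (p a)` (a number in `[0,2^u)`). The test of `(i',c') ≠ (i,c)` does not depend on it: other label, or same label and `|p a - p a'| > 16/2^w ≥ 1024/2^u`, while `Wd` at `p a'` depends only on the digits `l'-1,l',l'+1`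
(bWDF). Conditional probability: bWDF (last item) and bDGT with `θ = τ i ≥ τ1`, `ρ = 10/2^S`. bPRD; the base is `≤ 1`. -/
def bCFG_stmt : Prop := ∀ β : ℝ → ℝ, BUMP β → ∃ Kb : ℝ, 1 ≤ Kb ∧ ∀ (q u w N S k : ℕ) (P Em : ℕ → ℝ → ℝ) (τ : ℕ → ℝ) (th kk τ1 : ℝ) (p : ℕ → ℝ) (E : Finset (ℕ × ℕ × ℕ)),
  (∀ i, NM (1 / 100) (P i) ∧ NM (1 / 100) (Em i)) → 0 < τ1 → (∀ i, τ1 ≤ τ i ∧ τ i ≤ 1 / (8 * 2 ^ w) ∧ Kb * τ i * 2 ^ u ≤ 1 / 100) → 7 ≤ u → w + 6 ≤ u → 0 < N → 10 / 2 ^ S ≤ (1 : ℝ) / 2 ^ w →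
  40 / (2 ^ S * τ1) + 1 / (N : ℝ) ≤ 1 → 0 ≤ th → (∀ k' : ℕ, (k' : ℝ) ≤ kk → SPRf q (fun i x => P i (Em i x)) w k' th 4) → Monotone p →
  (∀ a < k, p a ∈ Set.Icc (1 / 6 : ℝ) (5 / 6)) → Cln k p w → PIn E → (∀ e ∈ E, e.1 < q ∧ e.2.1 < k ∧ e.2.2 < k) → th * q * k < E.card →
  bpr {w' : Fin q × Fin (2 ^ u) → Fin N | ∀ e ∈ E, |CMf β u N τ P Em (dg w') e.1 (p e.2.1) - p e.2.2| ≤ 10 / 2 ^ S} ≤
    (40 / (2 ^ S * τ1) + 1 / (N : ℝ)) ^ ⌈th * q * max 1 kk⌉₊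

/-- The configurations on the grid: points `p : Fin k → {0,…,2^(S+1)}` and targets of the edges `(label, source) ↦ target or nothing`. -/
abbrev Cfg (q S k : ℕ) : Type := (Fin k → Fin (2 ^ (S + 1) + 1)) × (Fin q → Fin k → Option (Fin k))

/-- The points of a configuration, extended to a function on `ℕ` (constant after `k`). -/
noncomputable def cpt {q S k : ℕ} (z : Cfg q S k) (a : ℕ) : ℝ :=
  if h : a < k then max (1 / 6) (min (5 / 6) (((z.1 ⟨a, h⟩ : ℕ) : ℝ) / 2 ^ (S + 1))) else 5 / 6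

/-- The edges of a configuration. -/
def ced {q S k : ℕ} (z : Cfg q S k) : Finset (ℕ × ℕ × ℕ) :=
  ((Finset.univ : Finset (Fin q × Fin k × Fin k)).filter (fun e => z.2 e.1 e.2.1 = some e.2.2)).image (fun e => ((e.1 : ℕ), (e.2.1 : ℕ), (e.2.2 : ℕ)))

/-- **bGRD** (medium). Rounding to the grid and sorting. uses: nothing (bNMF).
Proof. Let `p, E` violate `SPRf q C S k th 8`. Sort the points: a permutation `σ` of `{0,…,k-1}` with `p ∘ σ` monotone (`Tuple.sort`); relabel sources and targets of `E`. Round: `z.1 a = ⌊2^(S+1) p⌋` (`≤ 2^(S+1)`); `cpt z a = max (1/6) (…/2^(S+1))` differs from `p` by at most `1/2^(S+1)` and is monotone. `z.2 i a = some b` iff `(i,a,b) ∈ E`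
(at most one `b` because of `PIn`). `|C i (cpt a) - cpt b| ≤ 8/2^S + (101/100 + 1)/2^(S+1) ≤ 10/2^S`. -/
def bGRD_stmt : Prop := ∀ (q S k : ℕ) (C : ℕ → ℝ → ℝ) (th : ℝ), (∀ i < q, ∀ x y, |C i x - C i y| ≤ 2 * |x - y|) → ¬ SPRf q C S k th 8 →
  ∃ z : Cfg q S k, Monotone (cpt z) ∧ PIn (ced z) ∧ th * q * k < (ced z).card ∧ ∀ e ∈ ced z, |C e.1 (cpt z e.2.1) - cpt z e.2.2| ≤ 10 / 2 ^ S

/-- **bCNT** (short). Facts on configurations. uses: nothing. -/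
def bCNT_stmt : Prop := ∀ q S k : ℕ, (Fintype.card (Cfg q S k) : ℝ) ≤ (2 ^ (S + 1) + 1) ^ k * ((k : ℝ) + 1) ^ (q * k) ∧
  ∀ z : Cfg q S k, (∀ a, cpt z a ∈ Set.Icc (1 / 6 : ℝ) (5 / 6)) ∧ ∀ e ∈ ced z, e.1 < q ∧ e.2.1 < k ∧ e.2.2 < k

/-- **bNUM** (medium). Numbers of the union bound. uses: nothing.
Proof. `s = sj (t+1) ≥ ρ^3`, so `t ≥ 1`, `σ = sj t`, `s = σ + σ/4`, `u = bu t = σ/4`, `5u ≤ s ≤ 5u + 3`. Base `≤ 41 * 2^(3 w0 2^w0)/2^(s-σ) ≤ 2^(-(u - 3 w0 2^w0 - 6)) ≤ 2^(-s/6)` for `ρ` large. With `M = th ρ^4 max 1 (w/(2ρ^3))`, `2w + 2 ≥ u`: `w/(2ρ^3) ≥ s/(21ρ^3) ≥ k/21`, so the exponent of `1/2` is `≥ (s/6) th ρ^4 max 1 (k/21) ≥ s k th ρ^4/126`.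
Cost: `(s+2) k + ρ^4 k log2 (k+1) + k + 4`, `k + 1 ≤ s + 1`, and `log2 (s+1) ≤ s th/1000` for `s ≥ ρ^3` large, `s + 10 ≤ s th ρ^4/1000`. Base `≤ 1` similarly. -/
def bNUM_stmt : Prop := ∀ (w0 : ℕ) (th : ℝ), 0 < th → ∃ ρ0 : ℕ, ∀ ρ : ℕ, ρ0 ≤ ρ → ∀ t k w : ℕ, 1 ≤ k → k * ρ ^ 3 ≤ sj (ρ ^ 2) (t + 1) → bu w0 (ρ ^ 2) t ≤ 2 * w + 2 →
  40 / (2 ^ sj (ρ ^ 2) (t + 1) * ((1 : ℝ) / 2 ^ (sj (ρ ^ 2) t + 3 * w0 * 2 ^ w0))) + 1 / ((2 ^ sj (ρ ^ 2) (t + 1) : ℕ) : ℝ) ≤ 1 ∧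
  (2 ^ (sj (ρ ^ 2) (t + 1) + 1) + 1 : ℝ) ^ k * ((k : ℝ) + 1) ^ (ρ ^ 4 * k) *
    (40 / (2 ^ sj (ρ ^ 2) (t + 1) * ((1 : ℝ) / 2 ^ (sj (ρ ^ 2) t + 3 * w0 * 2 ^ w0))) + 1 / ((2 ^ sj (ρ ^ 2) (t + 1) : ℕ) : ℝ)) ^
      ⌈th * (ρ ^ 4 : ℕ) * max 1 ((w : ℝ) / (2 * ρ ^ 3))⌉₊ ≤ (1 / 2) ^ (k + 4)

/-- **bSJB** (short/medium). Elementary bounds on the exponents for `ρ` large. uses: nothing.
Proof. `sj` is nondecreasing in `t`, `sj 0 = ρ^2`; `sj (t+1) = sj t + sj t/4`; everything is linear in `sj t ≥ ρ^2`, and `2^K ≤ …` for `ρ` large. -/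
def bSJB_stmt : Prop := ∀ (w0 M : ℕ), ∃ ρ0 : ℕ, ∀ ρ : ℕ, ρ0 ≤ ρ → ∀ t : ℕ, M ≤ ρ ∧ ρ ^ 2 ≤ sj (ρ ^ 2) t ∧ M ≤ bu w0 (ρ ^ 2) t ∧
  bu w0 (ρ ^ 2) t + M ≤ sj (ρ ^ 2) t - w0 ∧ sj (ρ ^ 2) (t + 1) + 3 * w0 * 2 ^ w0 ≤ 6 * bu w0 (ρ ^ 2) t ∧
  (∀ φ < 2 ^ w0, 2 * bu w0 (ρ ^ 2) t + M ≤ amp w0 (ρ ^ 2) t φ ∧ amp w0 (ρ ^ 2) t φ + M ≤ sj (ρ ^ 2) (t + 1) ∧
    (1 ≤ t → amp w0 (ρ ^ 2) t φ ≤ sj (ρ ^ 2) t + 3 * w0 * 2 ^ w0)) ∧
  1024 * (sj (ρ ^ 2) (t + 1) / ρ ^ 3 + 1) + M ≤ bu w0 (ρ ^ 2) t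

/-- **bSPG** (medium). SPARSITY GROWTH. uses: bGRD, bCNT, bCFG, bCLN, bNUM, bSJB, bPRB, bNMF, bWDF.
Proof. `S = sj (t+1)`. If `SPRf … S k th 8` fails for some `k` with `k ρ^3 ≤ S` then `k ≥ 1` (for `k = 0` there are no edges), so bGRD gives a configuration `z : Cfg (ρ^4) S k`. For each `z` with monotone points, `PIn`, more than `th q k` edges: the scales `w` with `2w + 2 ≥ u`, `w + 6 ≤ u` are more than `512 k` (bSJB), so one of them is clean (bCLN);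
bCFG with `N = 2^S`, `kk = w/(2ρ^3)` (the hypothesis for `r = w`), `τ1 = 2^-(sj t + 3 w0 2^w0)`; union bound over the configurations (bCNT) and over `k ≥ 1` with bNUM: `∑_k (1/2)^(k+4) ≤ 1/16`. (`t = 0`: `k ρ^3 ≤ sj 1 < ρ^3` forces `k = 0`.) Slopes of the maps `CMf`: bNMF, bWDF. -/
def bSPG_stmt : Prop := ∀ β : ℝ → ℝ, BUMP β → ∀ (w0 : ℕ) (th : ℝ), 0 < th → ∃ ρ0 : ℕ, ∀ ρ : ℕ, ρ0 ≤ ρ → ∀ (t : ℕ) (P E : ℕ → DD),
  (∀ i, Sz (P i) (1 / 1000) ∧ Sz (E i) (1 / 1000)) →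
  (∀ r k : ℕ, r ≤ bu w0 (ρ ^ 2) t → 2 * k * ρ ^ 3 ≤ r → SPR (ρ ^ 4) (fun i => P i * E i) r k th 4) →
  bpr {w : Fin (ρ ^ 4) × Fin (2 ^ bu w0 (ρ ^ 2) t) → Fin (2 ^ sj (ρ ^ 2) (t + 1)) | ¬ ∀ k : ℕ, k * ρ ^ 3 ≤ sj (ρ ^ 2) (t + 1) →
    SPRf (ρ ^ 4) (CMf β (bu w0 (ρ ^ 2) t) (2 ^ sj (ρ ^ 2) (t + 1)) (fun i => 1 / 2 ^ amp w0 (ρ ^ 2) t (i % 2 ^ w0)) (fun i => ev (P i)) (fun i => ev (E i)) (dg w))
      (sj (ρ ^ 2) (t + 1)) k th 8} ≤ 1 / 10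

/-! ## Sliver -/

/-- **bSL1** (short/medium). One label, one point. uses: bDGT, bPRB, bNMF.
Proof. The points `P (b + τ c/N)` lie in an interval of length `≤ 1.01 τ ≤ 1.01/2^s`, so at most `3` grid points `k/2^s` have distance `≤ 3/2^σ ≤ 3/(8 * 2^s)` from one of them (they lie in an interval of length `< 2/2^s`); bDGT for each. -/
def bSL1_stmt : Prop := ∀ (P : ℝ → ℝ) (b τ : ℝ) (N s σ : ℕ), NM (1 / 100) P → 0 < τ → τ ≤ 1 / 2 ^ s → s + 3 ≤ σ → 0 < N →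
  bpr {c : Fin N | ∃ k : ℤ, |P (b + τ * (((c : ℕ) : ℝ) / N)) - (k : ℝ) / 2 ^ s| ≤ 3 / 2 ^ σ} ≤ 3 * (12 / (2 ^ σ * τ) + 1 / N)

/-- **bSL2** (medium). One point, many labels. uses: bSL1, bPRD, bPRB, bWDF.
Proof. Union over the sets of `m0 + 1` labels (at most `q^(m0+1)`; or over the injective maps `Fin (m0+1) → Fin q`); for a fixed set the tests of different labels depend on different coordinates; private coordinate `(i, ci u y)`; bWDF (last item), bSL1, bPRD. -/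
def bSL2_stmt : Prop := ∀ β : ℝ → ℝ, BUMP β → ∀ (q u N s σ m0 : ℕ) (P Em : ℕ → ℝ → ℝ) (τ : ℕ → ℝ) (τ1 y : ℝ), (∀ i, NM (1 / 100) (P i)) → 0 < τ1 →
  (∀ i, τ1 ≤ τ i ∧ τ i ≤ 1 / 2 ^ s) → 7 ≤ u → s + 3 ≤ σ → 0 < N → y ∈ Set.Icc (1 / 6 : ℝ) (5 / 6) →
  bpr {w : Fin q × Fin (2 ^ u) → Fin N | m0 < (nearf q (CMf β u N τ P Em (dg w)) s (3 / 2 ^ σ) y).card} ≤ (q * (3 * (12 / (2 ^ σ * τ1) + 1 / N))) ^ (m0 + 1)

/-- **bSLG** (medium). SLIVER. uses: bSL2, bSJB, bPRB, bNMF, bWDF.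
Proof. `m0 = 24`, `s = sj t`, `σ = s + s/8`. Every `y ∈ [1/6,5/6]` is within `1/2^σ` of a point `y' = max (1/6) (j/2^σ)`, `j ≤ 2^σ`, `y' ∈ [1/6,5/6]`, and `near` at `y` with radius `1/2^σ` is contained in `nearf` at `y'` with radius `3/2^σ` (slopes `≤ 1.01 * 1.02`). Union over the `y'` with bSL2: `(2^σ + 1) (ρ^4 * 3 * 13 * 2^(3 w0 2^w0)/2^(s/8))^25 ≤ 1/10`
for `ρ` large (`s ≥ ρ^2`, `25/8 > 9/8 + 1`). -/
def bSLG_stmt : Prop := ∃ m0 : ℕ, ∀ β : ℝ → ℝ, BUMP β → ∀ w0 : ℕ, ∃ ρ0 : ℕ, ∀ ρ : ℕ, ρ0 ≤ ρ → ∀ (t : ℕ) (P E : ℕ → DD), 1 ≤ t →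
  (∀ i, Sz (P i) (1 / 1000) ∧ Sz (E i) (1 / 1000)) →
  bpr {w : Fin (ρ ^ 4) × Fin (2 ^ bu w0 (ρ ^ 2) t) → Fin (2 ^ sj (ρ ^ 2) (t + 1)) | ¬ ∀ y ∈ Set.Icc (1 / 6 : ℝ) (5 / 6),
    (nearf (ρ ^ 4) (CMf β (bu w0 (ρ ^ 2) t) (2 ^ sj (ρ ^ 2) (t + 1)) (fun i => 1 / 2 ^ amp w0 (ρ ^ 2) t (i % 2 ^ w0)) (fun i => ev (P i)) (fun i => ev (E i)) (dg w))
      (sj (ρ ^ 2) t) (1 / 2 ^ (sj (ρ ^ 2) t + sj (ρ ^ 2) t / 8)) y).card ≤ m0} ≤ 1 / 10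

/-! ## Gap: analytic part -/

/-- **bSUP** (short). Affine functions on a cell. uses: nothing.
Proof. On a cell `f = a + b (x - centre)`, `∫ f^2 = 2^-s (a^2 + b^2 4^-s/12)`, `|f| ≤ |a| + |b| 2^-s/2`, `(|a| + |b|2^-s/2)^2 ≤ 4 (a^2 + b^2 4^-s/12)` (Cauchy-Schwarz with weights `1, 3`), slope `b`: `b^2 ≤ 12 * 4^s * 2^s ∫ f^2`. -/
def bSUP_stmt : Prop := ∀ (s : ℕ) (f : ℝ → ℝ), PA s f → ∀ (k : ℤ), ∀ x ∈ cell s k, f x ^ 2 ≤ 4 * 2 ^ s * (∫ t in cell s k, f t ^ 2) ∧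
  ∀ y ∈ cell s k, (f x - f y) ^ 2 ≤ 12 * 8 ^ s * (x - y) ^ 2 * ∫ t in cell s k, f t ^ 2

/-- **bROB** (medium). Perturbation. uses: bSUP, bNMF, bNIC.
Proof. If `C x`, `C' x` are in the same cell of level `s+1` the square of the difference is `≤ 12 * 8^(s+1) (η/2^s)^2 ∫_cell f^2 ≤ K η^2 * 2^s ∫_(cell of C x) f^2`. Otherwise `C x` is within `η/2^s` of an end point of its cell, and so is `C' x`: the square is `≤ 2 * 4 * 2^(s+1) (∫_(cell of C x) f^2 + ∫_(cell of C' x) f^2)`; the set of `x` with `C x` in a given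
cell of level `s+1` and within `η/2^s` of its end points has measure `≤ K η/2^s` (bNMF), same for `C'`. Sum over the (finitely many relevant) cells. -/
def bROB_stmt : Prop := ∃ K : ℝ, 1 ≤ K ∧ ∀ (C C' : ℝ → ℝ) (s : ℕ) (η : ℝ) (f : ℝ → ℝ), NM (1 / 20) C → NM (1 / 20) C' → 0 ≤ η → η ≤ 1 → (∀ x, |C' x - C x| ≤ η / 2 ^ s) →
  PA (s + 1) f → Su f → nsq (fun x => f (C' x) - f (C x)) ≤ K * η * nsq f

/-- **bWIN** (medium). Averages over a window of length `τ`. uses: bNMF, bNIC, bROB.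
Proof. Substitution `z = P y`, `y = B x + τ v`: `G x = (1/τ) ∫_(P(Bx))^(P(Bx+τ)) f(z) J(z) dz`, `J = 1/P'(P⁻¹ z)`, `|J(z) - J(P(Bx))| ≤ K τ` on the window. `|∫_(z0)^(z1) f| ≤ ∫_(cell_s(z0)) |f| + ∫_(cell_s(z1)) |f|` because `f` has integral `0` on the cells of level `s` (`Es s f = 0`). With `h z = 2^s ∫_(cell_s z) |f|` (`nsq h ≤ nsq f`, Cauchy-Schwarz):
`|G x| ≤ K/(2^s τ) (h (P (B x)) + h (P (B x + τ))) + K τ * ∫_0^1 |f (P (B x + τ v))| dv`. Norms: `x ↦ P (B x + c)` is a near-identity map (bNMF (2),(4)), Jensen and Fubini for the last term. -/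
def bWIN_stmt : Prop := ∃ K : ℝ, 1 ≤ K ∧ ∀ (P B : ℝ → ℝ) (s : ℕ) (τ : ℝ) (f : ℝ → ℝ), NM (1 / 100) P → (∀ x y, |deriv P x - deriv P y| ≤ |x - y|) → NM (1 / 100) B → 0 < τ → τ ≤ 1 / 100 →
  PA (s + 1) f → Su f → (∀ x, Es s f x = 0) → Nc (fun x => ∫ v in (0 : ℝ)..1, f (P (B x + τ * v))) ∧
  nsq (fun x => ∫ v in (0 : ℝ)..1, f (P (B x + τ * v))) ≤ K * (1 / (2 ^ s * τ) + τ) ^ 2 * nsq f

/-- **bMEA** (medium). The mean over one digit. uses: bWIN, bROB, bNMF, bNIC.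
Proof. `(1/N) ∑_(k<N) f (P (B x + τ k/N)) - ∫_0^1 f (P (B x + τ v)) dv = ∑_k ∫_(k/N)^((k+1)/N) [f (P (B x + τ k/N)) - f (P (B x + τ v))] dv`; by Jensen (weights `dv`) and Fubini its `nsq` is at most the supremum over `k, v` of the `nsq` of the bracket, which is `≤ K * 2^s * (1.01 τ/N) * nsq f` by bROB if `2 * 2^s τ/N ≤ 1`. -/
def bMEA_stmt : Prop := ∃ K : ℝ, 1 ≤ K ∧ ∀ (P B : ℝ → ℝ) (s N : ℕ) (τ : ℝ) (f : ℝ → ℝ), NM (1 / 100) P → (∀ x y, |deriv P x - deriv P y| ≤ |x - y|) → NM (1 / 100) B → 0 < τ → τ ≤ 1 / 100 →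
  0 < N → 2 * 2 ^ s * τ / N ≤ 1 → PA (s + 1) f → Su f → (∀ x, Es s f x = 0) →
  nsq (fun x => (∑ k ∈ Finset.range N, f (P (B x + τ * ((k : ℝ) / N)))) / N) ≤ K * ((1 / (2 ^ s * τ) + τ) ^ 2 + 2 ^ s * τ / N) * nsq f

/-- The cells of level `s` inside `[1/5,4/5]`. -/
abbrev Kc (s : ℕ) : Type := {k : Fin (2 ^ s) // 2 ^ s ≤ 5 * (k : ℕ) ∧ 5 * ((k : ℕ) + 1) ≤ 4 * 2 ^ s}

/-- The two basic increments on the unit cell. -/
noncomputable def hb (b : Bool) (t : ℝ) : ℝ := if b then √48 * (|t - 1 / 2| - 1 / 4) else (if t < 1 / 2 then -2 else 2) * (1 - 3 * |t - 1 / 2|)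

/-- The function with the coefficients `v`. -/
noncomputable def syn (s : ℕ) (v : Kc s × Bool → ℝ) (x : ℝ) : ℝ :=
  ∑ α : Kc s × Bool, v α * (cell s ((α.1.1 : ℕ) : ℤ)).indicator (fun x => √(2 ^ s) * hb α.2 (2 ^ s * x - ((α.1.1 : ℕ) : ℝ))) x

/-- **bBAS** (medium). The increments of level `s`. uses: nothing.
Proof. On the unit cell `hb true`, `hb false` are orthonormal, affine on the two halves, and orthogonal to `1` and `t`; a function affine on the two halves (4 parameters) and orthogonal to `1`, `t` is a combination of them. Scaling. A function `f` with `PA (s+1)`, `Su`, `Es s f = 0` (i.e. both moments of every cell vanish: evaluate `Es s f` at two points of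
the cell) vanishes on every cell of level `s` which is not inside `[1/5,4/5]`: `1/5`, `4/5` are not dyadic, `f` is `0` on a part of positive length of one half, so on this half, and then (moments) on the other one (if the cell is outside it is clear). -/
def bBAS_stmt : Prop := ∀ s : ℕ,
  (∀ v : Kc s × Bool → ℝ, PA (s + 1) (syn s v) ∧ Su (syn s v) ∧ (∀ x, Es s (syn s v) x = 0) ∧ nsq (syn s v) = ∑ α, v α ^ 2) ∧
  ∀ f : ℝ → ℝ, PA (s + 1) f → Su f → (∀ x, Es s f x = 0) → ∃ v : Kc s × Bool → ℝ, f = syn s v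

/-- **bXOP** (medium). The operators. uses: bBAS, bNMF, bNIC.
Proof. `v ↦ toLp (A.indicator (syn s v ∘ C))` is linear, norm`^2 = nsq (…) ≤ nsq (syn s v ∘ C) ≤ (20/19) ∑ v^2`, `20/19 ≤ (11/10)^2`. For `C` or `A` not as required put `X C A = 0`. -/
def bXOP_stmt : Prop := ∀ s : ℕ, ∃ X : (ℝ → ℝ) → Set ℝ → (EuclideanSpace ℝ (Kc s × Bool) →L[ℝ] (MeasureTheory.Lp ℝ 2 (volume : Measure ℝ))),
  ∀ (C : ℝ → ℝ) (A : Set ℝ), NM (1 / 20) C → MeasurableSet A →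
    (∀ v : EuclideanSpace ℝ (Kc s × Bool), ((X C A v : MeasureTheory.Lp ℝ 2 (volume : Measure ℝ)) : ℝ → ℝ) =ᵐ[volume] A.indicator (fun x => syn s (WithLp.ofLp v) (C x))) ∧ ‖X C A‖ ≤ 11 / 10

/-- **bPRO** (medium). The projections onto the mother cells of level `u ≤ s`. uses: nothing.
Proof. `P j` = restriction of the coordinates to those `α` whose cell `k` satisfies `k / 2^(s-u) = j` (a coordinate projection of `EuclideanSpace`); at most `2^(s-u)` cells, two coordinates each. -/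
def bPRO_stmt : Prop := ∀ s u : ℕ, u ≤ s → ∃ P : Fin (2 ^ u) → (EuclideanSpace ℝ (Kc s × Bool) →L[ℝ] EuclideanSpace ℝ (Kc s × Bool)), DH5.PF P (2 * 2 ^ (s - u)) ∧
  ∀ (j : Fin (2 ^ u)) (v : EuclideanSpace ℝ (Kc s × Bool)) (α : Kc s × Bool), WithLp.ofLp (P j v) α = if ((α.1.1 : ℕ) / 2 ^ (s - u) = (j : ℕ)) then WithLp.ofLp v α else 0

/-- The ball `l` of the label `i` touches the mother cell `j` (for some value of the digit). -/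
def tch {ι : Type} (P B : ι → ℝ → ℝ) (u : ℕ) (τ : ℝ) (i : ι) (l j : Fin (2 ^ u)) : Prop :=
  (∃ z ∈ cell u ((j : ℕ) : ℤ), z ∈ Set.Icc (1 / 5 : ℝ) (4 / 5)) ∧ ∃ x ∈ cell u ((l : ℕ) : ℤ), ∃ θ ∈ Set.Icc (0 : ℝ) τ, P i (B i x + θ) ∈ cell u ((j : ℕ) : ℤ)

/-- **bTCH** (short/medium). Touching. uses: bNMF.
Proof. (1) for `x, x'` in a cell of level `u` and `θ, θ' ∈ [0,τ]`: `|P (B x + θ) - P (B x' + θ')| ≤ 1.01 (1.01/2^u + τ) < 2/2^u`, so at most three consecutive `j`. (2) `|P (B x + θ) - P (B x' + θ')| < 1/2^u` gives `|x - x'| ≤ (1/0.99)(1/(0.99 * 2^u) + τ) < 2/2^u`. (3) displacement of `P ∘ (B + θ)` at most `0.03`; centres: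
`|P (B x_l) - P (B x + θ)| ≤ 1.01 (1.01/(2 * 2^u) + τ)`, `|P (B x + θ) - z_j| ≤ 1/(2 * 2^u)`. -/
def bTCH_stmt : Prop := ∀ (ι : Type) (P B : ι → ℝ → ℝ) (u : ℕ) (τ : ℝ), (∀ i, NM (1 / 100) (P i) ∧ NM (1 / 100) (B i)) → 8 ≤ u → 0 ≤ τ → τ ≤ 1 / (100 * 2 ^ u) →
  (∀ i l, Set.ncard {j | tch P B u τ i l j} ≤ 3) ∧ (∀ i j, Set.ncard {l | tch P B u τ i l j} ≤ 3) ∧
  ∀ i l j, tch P B u τ i l j → (((l : ℕ) : ℝ) + 1 / 2) / 2 ^ u ∈ Set.Icc (1 / 6 : ℝ) (5 / 6) ∧ (((j : ℕ) : ℝ) + 1 / 2) / 2 ^ u ∈ Set.Icc (1 / 6 : ℝ) (5 / 6) ∧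
    |P i (B i ((((l : ℕ) : ℝ) + 1 / 2) / 2 ^ u)) - (((j : ℕ) : ℝ) + 1 / 2) / 2 ^ u| ≤ 2 / 2 ^ u

/-- **bSMS** (medium). Small sets of balls and mother cells. uses: bTCH.
Proof. Let `k' = #S + #T < ks`, points: the centres of the balls of `S` and of the cells of `T` (the value `1/2` for centres outside `[1/6,5/6]`, they are not touched). For every label the relation `tch` between `S` and `T` has all degrees `≤ 3`; give the edge `(l,j)` the colour (number of `j` among the `≤ 3` cells touched by `l`, number of `l` among the `≤ 3` balls touching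
`j`): `9` colours, each colour class is a partial injection. `SPRf` of `C0` for each colour (tolerance `(2 + 1)/2^u ≤ 4/2^u`): `e ≤ 9 th q (#S + #T) ≤ 18 th q max`. Also `e ≤ 3 #fam min`. So `e^2 ≤ 54 th q #fam #S #T ≤ (b #fam)^2 #S #T`. -/
def bSMS_stmt : Prop := ∀ (q m φ u : ℕ) (C0 P B : ℕ → ℝ → ℝ) (τ th b ks : ℝ), (∀ i, NM (1 / 100) (P i) ∧ NM (1 / 100) (B i)) → 8 ≤ u → 0 ≤ τ → τ ≤ 1 / (100 * 2 ^ u) → 0 ≤ th → 0 ≤ b →
  54 * th * q ≤ b ^ 2 * (fam q m φ).card → (∀ i x, |P i (B i x) - C0 i x| ≤ 1 / 2 ^ u) → (∀ k : ℕ, (k : ℝ) < ks → SPRf q C0 u k th 4) →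
  ∀ S T : Finset (Fin (2 ^ u)), (S.card + T.card : ℝ) < ks →
    (Set.ncard {e : {i // i ∈ fam q m φ} × Fin (2 ^ u) × Fin (2 ^ u) | e.2.1 ∈ S ∧ e.2.2 ∈ T ∧
      tch (fun i : {i // i ∈ fam q m φ} => P i) (fun i : {i // i ∈ fam q m φ} => B i) u τ e.1 e.2.1 e.2.2} : ℝ) ≤ b * (fam q m φ).card * √((S.card : ℝ) * T.card)

open Classical in
/-- The centred part of the label `i` on the balls of parity `par`. -/
noncomputable def zc {ι : Type} (P B : ι → ℝ → ℝ) (u N par : ℕ) (τ : ℝ) (f : ℝ → ℝ) (ω : ι × Fin (2 ^ u) → Fin N) (i : ι) (x : ℝ) : ℝ :=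
  ∑ l : Fin (2 ^ u), if (l : ℕ) % 2 = par ∧ x ∈ cell u ((l : ℕ) : ℤ) then
    f (P i (B i x + τ * (((ω (i, l) : ℕ) : ℝ) / N))) - (∑ k ∈ Finset.range N, f (P i (B i x + τ * ((k : ℝ) / N)))) / N else 0

/-- **bHGP** (medium/LONG). HALF OF THE GAP: from helper41's abstract theorem to functions. uses: DH5.GAP_stmt, bBAS, bXOP, bPRO, bTCH, bNMF.
Proof. `DH5.GAP_stmt` with labels `ι`, `Z = J = Fin (2^u)`, `Ω = Fin N`, `V = EuclideanSpace ℝ (Kc s × Bool)`, `H = Lp ℝ 2`, `P j` from bPRO, `touch = tch`, `D = 2 * 2^(s-u)`, `t = s` (`D * 2 * 2^u = 4 * 2^s ≤ 2^(2s)`), `β = b`, `k = ks`, and `X i l c = X (fun x => P i (B i x + τ c/N)) (cell u l)` (bXOP) if `l % 2 = par`, `0` otherwise; the map is `NM (1/20)` (bNMF (2), `τ ≤ 1/100`).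
Orthogonality: the ranges for different `l` are supported on disjoint cells (inner product in `Lp` = integral of the product). `X ∘ P j = 0` unless touching: `syn s (P j v)` vanishes outside `cell u j`, and vanishes altogether if this cell does not meet `[1/5,4/5]` (then `P j = 0`); for `x ∈ cell u l` with `P (B x + θ) ∈ cell u j`, `tch` holds. For an `ω` outside the exceptional
set and `f = syn s v` (bBAS) the `Lp` function `(1/#ι) ∑ (X (ω e) - mean) v` is a.e. equal to `x ↦ (∑_i zc … i x)/#ι`. -/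
def bHGP_stmt : Prop := ∃ K : ℝ, 1 ≤ K ∧ ∀ (ι : Type) [Fintype ι] [DecidableEq ι] [Nonempty ι] (P B : ι → ℝ → ℝ) (u s N par : ℕ) (τ b ks : ℝ), (∀ i, NM (1 / 100) (P i) ∧ NM (1 / 100) (B i)) → 0 < τ → τ ≤ 1 / (100 * 2 ^ u) →
  8 ≤ u → u ≤ s → 0 < N → 0 < b → b ≤ 1 → 0 ≤ ks →
  (∀ S T : Finset (Fin (2 ^ u)), (S.card + T.card : ℝ) < ks → (Set.ncard {e : ι × Fin (2 ^ u) × Fin (2 ^ u) | e.2.1 ∈ S ∧ e.2.2 ∈ T ∧ tch P B u τ e.1 e.2.1 e.2.2} : ℝ) ≤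
    b * Fintype.card ι * √((S.card : ℝ) * T.card)) →
  K * Real.log (Fintype.card ι + 1) ≤ b ^ 2 * Fintype.card ι → K * s * Real.log (2 / b) ≤ b ^ 2 * Fintype.card ι * ks →
  bpr {ω : ι × Fin (2 ^ u) → Fin N | ∃ f : ℝ → ℝ, PA (s + 1) f ∧ Su f ∧ (∀ x, Es s f x = 0) ∧
    (K * b * Real.log (2 / b)) ^ 2 * nsq f < nsq (fun x => (∑ i, zc P B u N par τ f ω i x) / Fintype.card ι)} ≤ (1 / 2) ^ (4 * s)

/-- The base map of the label `i` in which the digits of parity `par` are removed. -/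
noncomputable def Bfr (β : ℝ → ℝ) (u N par : ℕ) (τ : ℝ) (E : ℕ → ℝ → ℝ) (om : ℕ → ℕ → ℕ) (i : ℕ) (x : ℝ) : ℝ :=
  E i x + Wd β u N τ (fun l => if l % 2 = par then 0 else om i l) x

/-- **bFGA** (medium). From the two parities to the family (deterministic). uses: bMEA, bNIC, bNMF, bWDF.
Proof. For `x ∈ [1/6,5/6]`, `l = ci u x`, `par = l % 2`: `Wd … (om i) x = Wd … (par removed) x + τ om i l/N` (bWDF: the digits `l ± 1` have the other parity, the digits `l ± 2` do not matter). For `x ∉ [1/6,5/6]` all the `f (C i x)` are `0` (displacement `≤ 0.024 < 1/5 - 1/6`), and the centred and mean terms vanish, too. So `Tff f = ∑_(par = 0,1) [(∑_i zc_i)/#fam + (∑_i mean_i)/#fam]`,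
`mean_i = 1_(cells of parity par) (∑_(k<N) f (P i (Bfr i x + τ k/N)))/N`; `nsq` of the second bracket by bNIC (Jensen) and bMEA; Minkowski. `Bfr` is `NM (1/100)`: `|W| ≤ 3τ`, `|W'| ≤ Kb τ 2^u`. -/
def bFGA_stmt : Prop := ∀ β : ℝ → ℝ, BUMP β → ∃ Kb K : ℝ, 1 ≤ Kb ∧ 1 ≤ K ∧ ∀ (q m φ u s N : ℕ) (P E : ℕ → ℝ → ℝ) (τ lam1 : ℝ) (w : Fin q × Fin (2 ^ u) → Fin N),
  (∀ i, NM (1 / 1000) (P i) ∧ (∀ x y, |deriv (P i) x - deriv (P i) y| ≤ |x - y|) ∧ NM (1 / 1000) (E i)) → 0 < τ → Kb * τ * 2 ^ u ≤ 1 / 1000 → 8 ≤ u → 0 < N → 2 * 2 ^ s * τ / N ≤ 1 → 0 ≤ lam1 →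
  (fam q m φ).Nonempty →
  (∀ par < 2, ∀ f : ℝ → ℝ, PA (s + 1) f → Su f → (∀ x, Es s f x = 0) →
    nsq (fun x => (∑ i : {i // i ∈ fam q m φ}, zc (fun i : {i // i ∈ fam q m φ} => P i) (fun i : {i // i ∈ fam q m φ} => Bfr β u N par τ E (dg w) i) u N par τ f
      (fun e => w (⟨e.1.1, Finset.mem_range.1 (Finset.mem_filter.1 e.1.2).1⟩, e.2)) i x) / Fintype.card {i // i ∈ fam q m φ}) ≤ lam1 ^ 2 * nsq f) →
  FGf q m φ (CMf β u N (fun _ => τ) P E (dg w)) s (2 * lam1 + K * (1 / (2 ^ s * τ) + τ + √(2 ^ s * τ / N)))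

/-- **bFGQ** (medium). Probability of the failure of the gap of a family. uses: bFGA, bHGP, bSMS, bRSM, bMRG, bPRB, bNMF, bWDF.
Proof. By bFGA it is enough to bound for each parity the probability that the centred part is large. Resample (bRSM) the coordinates `S = {(i,l) | i % m = φ, l % 2 = par}`; the maps `Bfr … par` depend only on the other coordinates; the event depends on the resampled coordinates of the family only: bMRG with `e : fam × Fin (2^u) → Fin q × Fin (2^u)` (coordinates of the other parity do not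
enter `zc`), bHGP. Small sets: bSMS for the maps `B i = Bfr … i` and `C0 i = P i ∘ E i`: `|P (Bfr x) - P (E x)| ≤ 1.01 * 3 τ ≤ 1/2^u`; `NM (1/100) (Bfr … i)` from bWDF. -/
def bFGQ_stmt : Prop := ∀ β : ℝ → ℝ, BUMP β → ∃ Kb K : ℝ, 1 ≤ Kb ∧ 1 ≤ K ∧ ∀ (q m φ u s N : ℕ) (P E : ℕ → ℝ → ℝ) (τ th b ks : ℝ),
  (∀ i, NM (1 / 1000) (P i) ∧ (∀ x y, |deriv (P i) x - deriv (P i) y| ≤ |x - y|) ∧ NM (1 / 1000) (E i)) → 0 < τ → Kb * τ * 2 ^ u ≤ 1 / 1000 → 8 ≤ u → u ≤ s → 0 < N → 2 * 2 ^ s * τ / N ≤ 1 →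
  0 < b → b ≤ 1 → 0 ≤ th → 0 ≤ ks → (fam q m φ).Nonempty → 54 * th * q ≤ b ^ 2 * (fam q m φ).card →
  (∀ k : ℕ, (k : ℝ) < ks → SPRf q (fun i x => P i (E i x)) u k th 4) →
  K * Real.log ((fam q m φ).card + 1) ≤ b ^ 2 * (fam q m φ).card → K * s * Real.log (2 / b) ≤ b ^ 2 * (fam q m φ).card * ks →
  bpr {w : Fin q × Fin (2 ^ u) → Fin N | ¬ FGf q m φ (CMf β u N (fun _ => τ) P E (dg w)) s
    (2 * (K * b * Real.log (2 / b)) + K * (1 / (2 ^ s * τ) + τ + √(2 ^ s * τ / N)))} ≤ 2 * (1 / 2) ^ (4 * s)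

/-- **bFGP** (medium). The gap of the families with the numbers of `BAT`. uses: bFGQ, bSJB, bNMF.
Proof. `b = 4^-w0`, `th = b^2/(108 * 2^w0)`-ish, `ks = bu/(2ρ^3)`, `q = ρ^4`, `#fam ≥ ρ^4/2^w0 - 1 ≥ ρ^4/2^(w0+1)`; `s ≤ 6 bu`; `K s log (2/b) ≤ b^2 ρ^4/2^(w0+1) * bu/(2ρ^3)` for `ρ` large. `1/(2^s τ) ≤ 2^-w0`, `τ ≤ 2^-w0`, `2^s τ/N ≤ 4^-w0`. The maps of the family `φ` have the amplitude `τ = 2^-amp φ`, so `FGf` for `fun i => 1/2^(amp (i % 2^w0))` and for the constant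
amplitude are the same (only labels of the family occur). `K 4^-w0 log (2 * 4^w0) ≤ K' 2^-w0`. -/
def bFGP_stmt : Prop := ∀ β : ℝ → ℝ, BUMP β → ∃ (K : ℝ) (wK : ℕ), 1 ≤ K ∧ ∀ w0 : ℕ, wK ≤ w0 → ∃ (th : ℝ) (ρ0 : ℕ), 0 < th ∧ ∀ ρ : ℕ, ρ0 ≤ ρ → ∀ (t : ℕ) (P E : ℕ → DD),
  (∀ i, Sz (P i) (1 / 1000) ∧ Sz (E i) (1 / 1000)) →
  (∀ r k : ℕ, r ≤ bu w0 (ρ ^ 2) t → 2 * k * ρ ^ 3 ≤ r → SPR (ρ ^ 4) (fun i => P i * E i) r k th 4) →
  ∀ φ < 2 ^ w0, ∀ s : ℕ, amp w0 (ρ ^ 2) t φ + w0 ≤ s → s ≤ sj (ρ ^ 2) (t + 1) + 3 * w0 * 2 ^ w0 →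
  bpr {w : Fin (ρ ^ 4) × Fin (2 ^ bu w0 (ρ ^ 2) t) → Fin (2 ^ sj (ρ ^ 2) (t + 1)) | ¬ FGf (ρ ^ 4) (2 ^ w0) φ
    (CMf β (bu w0 (ρ ^ 2) t) (2 ^ sj (ρ ^ 2) (t + 1)) (fun i => 1 / 2 ^ amp w0 (ρ ^ 2) t (i % 2 ^ w0)) (fun i => ev (P i)) (fun i => ev (E i)) (dg w)) s (K / 2 ^ w0)} ≤ 2 * (1 / 2) ^ (4 * s)

end Pool.Agent.helper90.DH
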