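import Pool.Agent.helper13.D2.SZC
import Pool.Agent.helper15.DH.GALL
import Pool.Agent.helper15.G5.TD
import Pool.Agent.helper76.G5.BL
import Pool.Agent.helper77.G5.TR
import Pool.Agent.helper77.G5.HF
import Pool.Agent.helper18.G5.SH
import Pool.Agent.helper20.G5.SY
import Pool.Agent.helper46.G5.CC
import Pool.Agent.helper74.G5.CS
import Pool.Agent.helper41.G5.PR
import Pool.Agent.helper41.G5.GAP
import Pool.Agent.helper11.DHB.bXOP
import Pool.Agent.helper12.DHB.bSLG
import Pool.Agent.helper13.DHB.bNIC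
import Pool.Agent.helper16.DHB.bPRD
import Pool.Agent.helper18.DHB.bCNT
import Pool.Agent.helper18.DHB.bFGQ
import Pool.Agent.helper19.DHB.bLAY
import Pool.Agent.helper2.DHB.bCFG
import Pool.Agent.helper21.DHB.bSMS
import Pool.Agent.helper26.DHB.bFGP
import Pool.Agent.helper3.DHB.bGRD
import Pool.Agent.helper30.DHB.bRSM
import Pool.Agent.helper32.DHB.bNPR
import Pool.Agent.helper34.DHB.bNMF
import Pool.Agent.helper36.DHB.bCLB
import Pool.Agent.helper4.DHB.bMEA
import Pool.Agent.helper40.DHB.bBAS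
import Pool.Agent.helper43.DHB.BAT
import Pool.Agent.helper43.DHB.bHGP
import Pool.Agent.helper44.DHB.bPRO
import Pool.Agent.helper46.DHB.bMRG
import Pool.Agent.helper5.DHB.bCLN
import Pool.Agent.helper51.DHB.bTCH
import Pool.Agent.helper55.DHB.bNUM
import Pool.Agent.helper59.DHB.bSPG
import Pool.Agent.helper63.DHB.bSL2
import Pool.Agent.helper67.DHB.PERT
import Pool.Agent.helper74.DHB.bPRB
import Pool.Agent.helper77.DHB.bWDF
import Pool.Agent.helper87.DHB.bSJB
import Pool.Agent.helper88.DHB.bDGT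
import Pool.Agent.helper89.DHB.bFGA
import Pool.Agent.helper93.DHB.WIN
import Pool.Agent.helper96.DHB.bROB
import Pool.Agent.helper99.DHB.bSL1
import Pool.Agent.helper99.DHB.bSUP

/-!
# MP_5823cb_al, part G (sparsity, static gap, sliver): assembly

`BAT_all`, `PERT_all`, `GALL_all` are the interface statements of `Pool/Agent/helper90/DH/Iface.lean`, proved without hypotheses.
-/

set_option autoImplicit false

namespace Pool.Agent.helper90.DH

open Pool.Agent.helper64.D2

theorem partG_GAP : DH5.GAP_stmt :=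
  DH5.GAP DH5.TD DH5.BL DH5.TR DH5.SH DH5.SY (DH5.PR DH5.HF DH5.CS DH5.CC)

theorem partG_NIC : bNIC_stmt := bNIC bNMF

theorem partG_ROB : bROB_stmt := bROB bSUP bNMF partG_NIC

theorem partG_HGP : bHGP_stmt := bHGP partG_GAP bBAS (bXOP bBAS partG_NIC) bPRO (bTCH bNMF) bNMF

theorem partG_MEA : bMEA_stmt := bMEA (bWIN bNMF partG_NIC) partG_ROB bNMF partG_NIC

theorem partG_FGA : bFGA_stmt := bFGA partG_MEA partG_NIC bNMF bWDF

theorem partG_FGQ : bFGQ_stmt := bFGQ partG_FGA partG_HGP (bSMS (bTCH bNMF)) bRSM bMRG bPRB bNMF bWDF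

theorem partG_CFG : bCFG_stmt := bCFG (bNPR bCLB bLAY) bCLB bPRD bPRB bDGT bWDF bNMF

theorem partG_SPG : bSPG_stmt := bSPG bPRB bGRD bCNT partG_CFG bCLN bNUM bSJB bNMF bWDF

theorem partG_SLG : bSLG_stmt := bSLG (bSL2 (bSL1 bDGT bPRB bNMF) bPRD bPRB bWDF) bSJB bPRB bNMF bWDF

theorem BAT_all : BAT_stmt := BAT partG_SPG partG_SLG (bFGP partG_FGQ bSJB bNMF) bSJB bPRB

theorem PERT_all : PERT_stmt := PERT partG_ROB partG_NIC bNMF

theorem GALL_all : GALL_stmt := GALL SZC

end Pool.Agent.helper90.DH
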